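import Pool.Agent.Work.MP_e487d8_al.Bd.B31
import Pool.Agent.Work.MP_e487d8_al.Bd.B42

/-! MP_e487d8_al: the graded Grothendieck ring as a ring of graded characters, from the properties
of the graded characters of the simple modules. -/

set_option autoImplicit false

open Pool.Agent.E487.Hopf Pool.Agent.KLSAbs

open scoped LaurentPolynomial

namespace Pool.Agent.KLS

variable {K I : Type} [Field K] [Fintype I] [DecidableEq I] {D : Datum K I}

namespace In

variable {Lp : I → ℕ → SMod D} (hC : CFacts D Lp) (hconv : S_conv D)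

/-- properties of the graded characters of the simple modules -/
structure GkIn where
  /-- the graded character -/
  gch : Sm D → QSh D.fm
  gch_one : gch (Sm.one D) = 1
  supp : ∀ (X : Sm D) (ν : List I), gch X ν ≠ 0 → X.1 ν ≠ 0
  ev : ∀ X : Sm D, QSh.ev (gch X) = Sm.chq X
  /-- graded multiplicities in `X ∘ Y` -/
  c : Sm D → Sm D → Sm D →₀ ℤ[T;T⁻¹]
  c_pos : ∀ X Y Z n, 0 ≤ (c X Y Z).coeff n
  mul : ∀ X Y : Sm D, gch X * gch Y = (c X Y).sum fun Z a => a • gch Z
  top : ∀ (i : I) (X : Sm D), ∃ a : ℤ[T;T⁻¹], a ≠ 0 ∧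
    (QSh.L i ^ Sm.eps hC i X) (gch X) = a • gch (Sm.E hC i X)
  mir : ∀ X : Sm D, ∃ s : ℤ, QSh.rv (gch X) = QSh.tt s • gch (mirS X)
  hd : ∀ B : Sm D, ∃ P : Sm D →₀ ℤ[T;T⁻¹], (∀ Z n, 0 ≤ (P Z).coeff n) ∧ ∀ X Z : Sm D,
    Hd1 X B Z → ∃ s D' : ℤ, (c X B Z).coeff s ≠ 0 ∧
    (P.sum fun Q a => a * c Q X Z).coeff (s + D') ≠ 0 ∧
    ∀ W n, (c X B W).coeff n ≠ 0 → ∃ e : ℕ, (P.sum fun Q a => a * c Q X W).coeff (n + D' - e) ≠ 0
  hd' : ∀ B : Sm D, ∃ P : Sm D →₀ ℤ[T;T⁻¹], (∀ Z n, 0 ≤ (P Z).coeff n) ∧ ∀ X Z : Sm D,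
    Hd1 B X Z → ∃ s D' : ℤ, (c B X Z).coeff s ≠ 0 ∧
    (P.sum fun Q a => a * c X Q Z).coeff (s + D') ≠ 0 ∧
    ∀ W n, (c B X W).coeff n ≠ 0 → ∃ e : ℕ, (P.sum fun Q a => a * c X Q W).coeff (n + D' - e) ≠ 0

namespace GkIn

variable {hC} {hconv} (G : GkIn hC)

theorem indep : LinearIndependent ℤ[T;T⁻¹] G.gch := Gk.indep hC G.gch G.ev

/-! ### the ring -/

/-- the graded Grothendieck ring -/
noncomputable def GK : Subalgebra ℤ[T;T⁻¹] (QSh D.fm) :=
  (Submodule.span ℤ[T;T⁻¹] (Set.range G.gch)).toSubalgebra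
    (by rw [← G.gch_one]; exact Submodule.subset_span ⟨_, rfl⟩)
    (by
      intro x y hx hy
      induction hx using Submodule.span_induction with
      | mem x hx =>
        obtain ⟨X, rfl⟩ := hx
        induction hy using Submodule.span_induction with
        | mem y hy =>
          obtain ⟨Y, rfl⟩ := hy
          rw [G.mul]
          exact Submodule.sum_mem _ fun Z _ =>
            Submodule.smul_mem _ _ (Submodule.subset_span ⟨_, rfl⟩)
        | zero => rw [mul_zero]; exact Submodule.zero_mem _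
        | add y z _ _ hy hz => rw [mul_add]; exact Submodule.add_mem _ hy hz
        | smul c y _ hy => rw [mul_smul_comm]; exact Submodule.smul_mem _ _ hy
      | zero => rw [zero_mul]; exact Submodule.zero_mem _
      | add y z _ _ hy hz => rw [add_mul]; exact Submodule.add_mem _ hy hz
      | smul c y _ hy => rw [smul_mul_assoc]; exact Submodule.smul_mem _ _ hy)

/-- the class of a simple module -/
noncomputable def gr (X : Sm D) : G.GK := ⟨G.gch X, Submodule.subset_span ⟨_, rfl⟩⟩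

theorem gr_indep : LinearIndependent ℤ[T;T⁻¹] G.gr := by
  have h := G.indep
  have h1 : G.gch = G.GK.val.toLinearMap ∘ G.gr := rfl
  rw [h1] at h
  exact LinearIndependent.of_comp _ h

theorem gr_span : ⊤ ≤ Submodule.span ℤ[T;T⁻¹] (Set.range G.gr) := by
  rintro ⟨f, hf⟩ _
  have hf' : f ∈ Submodule.span ℤ[T;T⁻¹] (Set.range G.gch) := hf
  rw [Finsupp.mem_span_range_iff_exists_finsupp] at hf' ⊢
  obtain ⟨c, hc⟩ := hf'
  refine ⟨c, Subtype.ext ?_⟩
  refine Eq.trans ?_ hc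
  show G.GK.val.toLinearMap (c.sum fun i a => a • G.gr i) = _
  rw [map_finsuppSum]
  rfl

/-- the basis of the classes of the simple modules -/
noncomputable def gb : Module.Basis (Sm D) ℤ[T;T⁻¹] G.GK := Module.Basis.mk G.gr_indep G.gr_span

theorem gb_apply (X : Sm D) : G.gb X = G.gr X := Module.Basis.mk_apply _ _ _

theorem gb_val (X : Sm D) : (G.gb X : QSh D.fm) = G.gch X := by rw [gb_apply]; rfl

theorem repr_sum (m : Sm D →₀ ℤ[T;T⁻¹]) : G.gb.repr (m.sum fun Z a => a • G.gb Z) = m := by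
  have h : (m.sum fun Z a => a • G.gb Z) = Finsupp.linearCombination ℤ[T;T⁻¹] G.gb m := rfl
  rw [h, Module.Basis.repr_linearCombination]

theorem gb_mul (X Y : Sm D) : G.gb X * G.gb Y = (G.c X Y).sum fun Z a => a • G.gb Z := by
  refine Subtype.ext ?_
  show (G.gb X : QSh D.fm) * (G.gb Y : QSh D.fm) = G.GK.val.toLinearMap _
  rw [gb_val, gb_val, G.mul, map_finsuppSum]
  refine Finsupp.sum_congr fun Z _ => ?_
  rw [map_smul]
  show _ = _ • (G.gb Z : QSh D.fm)
  rw [gb_val]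

theorem repr_mul (X Y : Sm D) : G.gb.repr (G.gb X * G.gb Y) = G.c X Y := by
  rw [gb_mul, repr_sum]

/-! ### evaluation -/

theorem ev_span (x : QSh D.fm) (hx : x ∈ Submodule.span ℤ[T;T⁻¹] (Set.range G.gch)) :
    QSh.ev x ∈ Sm.Gr hC hconv := by
  induction hx using Submodule.span_induction with
  | mem x hx => obtain ⟨X, rfl⟩ := hx; rw [G.ev]; exact Sm.chq_mem hC hconv X
  | zero => rw [map_zero]; exact Subalgebra.zero_mem _
  | add y z hy hz ihy ihz => rw [map_add]; exact Subalgebra.add_mem _ ihy ihz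
  | smul c y hy ih => rw [QSh.ev_smul]; exact Subalgebra.smul_mem _ ih _

theorem ev_mem (x : G.GK) : (QSh.ev.comp (G.GK.val : G.GK →+* QSh D.fm)) x ∈ Sm.Gr hC hconv :=
  G.ev_span x.1 x.2

/-- `T = 1` -/
noncomputable def evG : G.GK →+* Sm.Gr hC hconv :=
  (QSh.ev.comp (G.GK.val : G.GK →+* QSh D.fm)).codRestrict (Sm.Gr hC hconv)
    (G.ev_mem (hconv := hconv))

theorem evG_val (x : G.GK) : ((G.evG (hconv := hconv) x : Sm.Gr hC hconv) : Sh I ℚ) =
    QSh.ev x.1 := rfl

/-! ### weights and strings -/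

theorem bw_eq (i : I) {X : Sm D} {ν : List I} (h : X.1 ν ≠ 0) :
    QSh.bw D.fm i ν = sumW (fun j => D.d i * D.A i j) (Sm.wt X) := by
  have h1 : ∀ l : List I, QSh.bw D.fm i l = ∑ j, (D.d i * D.A i j) * (l.count j : ℤ) := by
    intro l
    induction l with
    | nil => simp
    | cons a l ih =>
      rw [QSh.bw_cons, ih]
      have h2 : ∀ j, (D.d i * D.A i j) * (((a :: l).count j : ℕ) : ℤ) =
          (D.d i * D.A i j) * (l.count j : ℤ) + if a = j then (D.d i * D.A i j) else 0 := by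
        intro j
        rw [List.count_cons]
        by_cases haj : a = j
        · subst haj; simp; ring
        · rw [if_neg (by simpa using haj), if_neg haj]; simp
      rw [Finset.sum_congr rfl fun j _ => h2 j, Finset.sum_add_distrib, Finset.sum_ite_eq]
      simp only [Finset.mem_univ, if_true]
      unfold Datum.fm
      ring
  rw [h1, sumW, Finsupp.sum_fintype _ _ (fun j => by simp)]
  refine Finset.sum_congr rfl fun j _ => ?_
  rw [Sm.count_eq h j]

theorem Kk_gch (i : I) (X : Sm D) : QSh.Kk i (G.gch X) =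
    QSh.tt (-(sumW (fun j => D.d i * D.A i j) (Sm.wt X))) • G.gch X := by
  apply QSh.ext'
  intro ν
  rw [QSh.Kk_apply, QSh.smul_apply]
  by_cases h : G.gch X ν = 0
  · rw [h, mul_zero, mul_zero]
  · rw [bw_eq i (G.supp X ν h)]

theorem Kk_pow_gch (i : I) (n : ℕ) (X : Sm D) : (QSh.Kk i ^ n) (G.gch X) =
    QSh.tt (-(n * sumW (fun j => D.d i * D.A i j) (Sm.wt X))) • G.gch X := by
  induction n with
  | zero => simp [QSh.tt_zero]
  | succ n ih =>
    rw [pow_succ, Module.End.mul_apply, Kk_gch, map_smul, ih, smul_smul, ← QSh.tt_add]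
    congr 2
    push_cast
    ring

theorem L_pow_apply (i : I) (n : ℕ) (f : QSh D.fm) (ν : List I) :
    (QSh.L i ^ n) f ν = f (List.replicate n i ++ ν) := by
  induction n generalizing ν f with
  | zero => rfl
  | succ n ih =>
    rw [pow_succ, Module.End.mul_apply, ih, QSh.L_apply, List.replicate_succ, List.cons_append]

theorem L_pow_gch (i : I) (X : Sm D) (n : ℕ) (h : Sm.eps hC i X < n) :
    (QSh.L i ^ n) (G.gch X) = 0 := by
  apply QSh.ext'
  intro ν
  rw [L_pow_apply, QSh.zero_apply]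
  by_contra h1
  have h2 := Sm.le_eps hC (G.supp X _ h1)
  omega

theorem smul_cancel {a : ℤ[T;T⁻¹]} (ha : a ≠ 0) {f g : QSh D.fm} (h : a • f = a • g) : f = g := by
  apply QSh.ext'
  intro w
  have h1 := congrFun h w
  rw [QSh.smul_apply, QSh.smul_apply] at h1
  exact mul_left_cancel₀ ha h1

/-- the string formula -/
theorem string (i : I) (C Y : Sm D) (a : ℤ)
    (h : G.gch Y * G.gch C = QSh.tt a • (G.gch C * G.gch Y)) :
    G.gch (Sm.E hC i Y) * G.gch (Sm.E hC i C) = QSh.tt (a -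
      (Sm.eps hC i Y : ℤ) * sumW (fun j => D.d i * D.A i j) (Sm.wt (Sm.E hC i C)) +
      (Sm.eps hC i C : ℤ) * sumW (fun j => D.d i * D.A i j) (Sm.wt (Sm.E hC i Y))) •
      (G.gch (Sm.E hC i C) * G.gch (Sm.E hC i Y)) := by
  obtain ⟨α, hα, h1⟩ := G.top i Y
  obtain ⟨β, hβ, h2⟩ := G.top i C
  set b := Sm.eps hC i Y with hb
  set c := Sm.eps hC i C with hc
  set u := G.gch (Sm.E hC i Y) with hu
  set v := G.gch (Sm.E hC i C) with hv
  set wu := sumW (fun j => (D.d i : ℤ) * D.A i j) (Sm.wt (Sm.E hC i Y)) with hwu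
  set wv := sumW (fun j => (D.d i : ℤ) * D.A i j) (Sm.wt (Sm.E hC i C)) with hwv
  have hz : QSh.ev1 (QSh.tt (-(D.fm i i))) = 1 := QSh.ev1_tt _
  have e1 : (QSh.L i ^ (b + c)) (G.gch Y * G.gch C) =
      (QSh.gc (QSh.tt (-(D.fm i i))) b c * α * β * QSh.tt (-(c * wu))) • (u * v) := by
    rw [QSh.L_pow_mul_top i (fun n hn => G.L_pow_gch i Y n hn) (fun n hn => G.L_pow_gch i C n hn),
      h1, h2, map_smul, G.Kk_pow_gch, smul_smul, smul_mul_smul_comm, smul_smul]
    congr 1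
    ring
  have e2 : (QSh.L i ^ (b + c)) (G.gch C * G.gch Y) =
      (QSh.gc (QSh.tt (-(D.fm i i))) b c * α * β * QSh.tt (-(b * wv))) • (v * u) := by
    rw [add_comm b c, QSh.L_pow_mul_top i (fun n hn => G.L_pow_gch i C n hn)
      (fun n hn => G.L_pow_gch i Y n hn), h1, h2, map_smul, G.Kk_pow_gch, smul_smul,
      smul_mul_smul_comm, smul_smul, QSh.gc_symm _ hz c b]
    congr 1
    ring
  have e3 := congrArg (QSh.L i ^ (b + c)) h
  rw [map_smul, e1, e2, smul_smul] at e3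
  have hne : QSh.gc (QSh.tt (-(D.fm i i))) b c * α * β * QSh.tt (-(c * wu)) ≠ 0 := by
    refine mul_ne_zero (mul_ne_zero (mul_ne_zero (QSh.gc_ne _ hz b c) hα) hβ) fun h0 => ?_
    have h10 := congrArg QSh.ev1 h0
    rw [QSh.ev1_tt, map_zero] at h10
    exact one_ne_zero h10
  refine smul_cancel hne ?_
  rw [e3, smul_smul]
  congr 1
  have e4 : QSh.tt (a - b * wv + c * wu) = QSh.tt a * QSh.tt (-(b * wv)) * QSh.tt (c * wu) := by
    rw [← QSh.tt_add, ← QSh.tt_add]
    congr 1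
  have e5 : QSh.tt (-(c * wu)) * QSh.tt (c * wu) = 1 := by
    rw [← QSh.tt_add, neg_add_cancel, QSh.tt_zero]
  rw [e4]
  linear_combination (-(QSh.gc (QSh.tt (-(D.fm i i))) b c * α * β * QSh.tt a *
    QSh.tt (-(b * wv)))) * e5

theorem tt_smul_cancel {a b : ℤ} {f g : QSh D.fm} (h : QSh.tt a • f = QSh.tt (a + b) • g) :
    f = QSh.tt b • g := by
  have h1 : QSh.tt (-a) • (QSh.tt a • f) = QSh.tt (-a) • (QSh.tt (a + b) • g) := by rw [h]
  rw [smul_smul, smul_smul, ← QSh.tt_add, ← QSh.tt_add, neg_add_cancel, QSh.tt_zero, one_smul,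
    neg_add_cancel_left] at h1
  exact h1

theorem rv_comm {C Y C' Y' : Sm D} {a : ℤ} (hC' : ∃ s : ℤ, QSh.rv (G.gch C) = QSh.tt s • G.gch C')
    (hY' : ∃ s : ℤ, QSh.rv (G.gch Y) = QSh.tt s • G.gch Y')
    (h : G.gch C * G.gch Y = QSh.tt a • (G.gch Y * G.gch C)) :
    G.gch Y' * G.gch C' = QSh.tt a • (G.gch C' * G.gch Y') := by
  obtain ⟨s, hs⟩ := hC'
  obtain ⟨s', hs'⟩ := hY'
  have h1 := congrArg QSh.rv h
  rw [map_smul, QSh.rv_mul D.fm_symm, QSh.rv_mul D.fm_symm, hs, hs', smul_mul_smul_comm,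
    smul_mul_smul_comm, smul_smul, ← QSh.tt_add, ← QSh.tt_add, ← QSh.tt_add] at h1
  refine tt_smul_cancel (a := s' + s) ?_
  rw [h1]
  congr 2
  ring

/-! ### the graded part -/

theorem gb_mul_iff {X Y X' Y' : Sm D} {a : ℤ} :
    G.gb X * G.gb Y = QSh.tt a • (G.gb X' * G.gb Y') ↔
      G.gch X * G.gch Y = QSh.tt a • (G.gch X' * G.gch Y') := by
  rw [Subtype.ext_iff, ← gb_val, ← gb_val, ← gb_val, ← gb_val]
  rfl

theorem cf_sum_left (P : Sm D →₀ ℤ[T;T⁻¹]) (X W : Sm D) :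
    G.gb.repr ((P.sum fun Q a => a • G.gb Q) * G.gb X) W = P.sum fun Q a => a * G.c Q X W := by
  unfold Finsupp.sum
  rw [Finset.sum_mul, map_sum, Finsupp.finset_sum_apply]
  refine Finset.sum_congr rfl fun Q _ => ?_
  rw [smul_mul_assoc, map_smul, Finsupp.smul_apply, repr_mul, smul_eq_mul]

theorem cf_sum_right (P : Sm D →₀ ℤ[T;T⁻¹]) (X W : Sm D) :
    G.gb.repr (G.gb X * (P.sum fun Q a => a • G.gb Q)) W = P.sum fun Q a => a * G.c X Q W := by
  unfold Finsupp.sum
  rw [Finset.mul_sum, map_sum, Finsupp.finset_sum_apply]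
  refine Finset.sum_congr rfl fun Q _ => ?_
  rw [mul_smul_comm, map_smul, Finsupp.smul_apply, repr_mul, smul_eq_mul]

/-- the graded part of the instance -/
noncomputable def toGrPart (hm : StMir hC hconv) : GrPart hC hconv G.GK where
  gb := G.gb
  gb_one := Subtype.ext (by rw [gb_val, G.gch_one]; rfl)
  gb_pos X Y Z n := by
    unfold cfK
    rw [repr_mul]
    exact G.c_pos X Y Z n
  ev := G.evG
  ev_gb X := Subtype.ext (by
    rw [evG_val, gb_val, G.ev]
    show Sm.chq X = ((Sm.bas hC hconv X : Sm.Gr hC hconv) : Sh I ℚ)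
    rw [Sm.bas_apply]
    rfl)
  ev_T n V := Subtype.ext (by
    rw [evG_val, evG_val]
    show QSh.ev (QSh.tt n • (V : QSh D.fm)) = _
    rw [QSh.ev_smul, QSh.ev1_tt, one_smul])
  lam_E i C Y _ a _ h := G.gb_mul_iff.2 (G.string i C Y a (G.gb_mul_iff.1 h))
  lam_E' i C Y _ a _ h := by
    refine G.gb_mul_iff.2 ?_
    have h1 := G.rv_comm (G.mir C) (G.mir Y) (G.gb_mul_iff.1 h)
    have h2 := G.string i (mirS C) (mirS Y) a h1
    have h3 := G.rv_comm (G.mir _) (G.mir _) h2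
    rw [← hm.wt (Sm.E hC i (mirS C)), ← hm.wt (Sm.E hC i (mirS Y))] at h3
    exact h3
  hd_deg B := by
    obtain ⟨P, hP, h⟩ := G.hd B
    refine ⟨P.sum fun Q a => a • G.gb Q, fun Z n => ?_, fun X Z hXZ => ?_⟩
    · unfold cfK
      rw [repr_sum]
      exact hP Z n
    · obtain ⟨s, D', h1, h2, h3⟩ := h X Z hXZ
      refine ⟨s, D', ?_, ?_, fun W n hW => ?_⟩
      · unfold cfK
        rw [repr_mul]
        exact h1
      · unfold cfK
        rw [cf_sum_left]
        exact h2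
      · unfold cfK at hW
        rw [repr_mul] at hW
        obtain ⟨e, he⟩ := h3 W n hW
        refine ⟨e, ?_⟩
        unfold cfK
        rw [cf_sum_left]
        exact he
  hd_deg' B := by
    obtain ⟨P, hP, h⟩ := G.hd' B
    refine ⟨P.sum fun Q a => a • G.gb Q, fun Z n => ?_, fun X Z hXZ => ?_⟩
    · unfold cfK
      rw [repr_sum]
      exact hP Z n
    · obtain ⟨s, D', h1, h2, h3⟩ := h X Z hXZ
      refine ⟨s, D', ?_, ?_, fun W n hW => ?_⟩
      · unfold cfK
        rw [repr_mul]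
        exact h1
      · unfold cfK
        rw [cf_sum_right]
        exact h2
      · unfold cfK at hW
        rw [repr_mul] at hW
        obtain ⟨e, he⟩ := h3 W n hW
        refine ⟨e, ?_⟩
        unfold cfK
        rw [cf_sum_right]
        exact he

end GkIn

end In

end Pool.Agent.KLS
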