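import Pool.Agent.Work.MP_e487d8_al.Y.Gk.QShB
import Pool.Agent.Work.MP_e487d8_al.Bd.B01

/-! MP_e487d8_al, block GK: statements on the quantum shuffle ring (pure algebra). -/

set_option autoImplicit false

open scoped LaurentPolynomial

open Pool.Agent.E487.Hopf

namespace Pool.Agent.KLS

/-- the value at `T = 1` -/
noncomputable def ev1 : ℤ[T;T⁻¹] →+* ℚ := LaurentPolynomial.eval₂ (Int.castRingHom ℚ) 1

theorem ev1_T (n : ℤ) : ev1 (Tm n) = 1 := by
  unfold ev1
  rw [LaurentPolynomial.eval₂_T]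
  simp

namespace QSh

variable {I : Type} {B : I → I → ℤ}

/-- the value at `T = 1` -/
noncomputable def evf (f : QSh I B) : Sh I ℚ := fun w => ev1 (f w)

theorem evf_Kt (i : I) (f : QSh I B) : evf (Kt i f) = evf f := by
  apply Sh.ext'
  intro w
  change ev1 (Tm (-bw B i w) * f w) = ev1 (f w)
  rw [map_mul, ev1_T, one_mul]

theorem evf_L (i : I) (f : QSh I B) : evf (L i f) = Sh.L i (evf f) := rfl

theorem evf_sm (w : List I) (f g : QSh I B) : ev1 (sm w f g) = Sh.sm w (evf f) (evf g) := by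
  induction w generalizing f g with
  | nil => rw [sm, map_mul]; rfl
  | cons i w ih => rw [sm, map_add, ih, ih, evf_Kt, evf_L, evf_L]; rfl

/-- the value at `T = 1` as a homomorphism of rings -/
noncomputable def evR : QSh I B →+* Sh I ℚ where
  toFun := evf
  map_zero' := Sh.ext' fun w => by
    change ev1 0 = 0
    rw [map_zero]
  map_one' := Sh.ext' fun w => by
    cases w with
    | nil =>
      change ev1 1 = 1
      rw [map_one]
    | cons i w =>
      change ev1 0 = 0
      rw [map_zero]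
  map_add' f g := Sh.ext' fun w => by
    change ev1 (f w + g w) = ev1 (f w) + ev1 (g w)
    rw [map_add]
  map_mul' f g := Sh.ext' fun w => evf_sm w f g

theorem evR_apply (f : QSh I B) (w : List I) : evR f w = ev1 (f w) := rfl

theorem evR_smul (c : ℤ[T;T⁻¹]) (f : QSh I B) : evR (c • f) = ev1 c • evR f :=
  Sh.ext' fun w => by
    change ev1 (c * f w) = ev1 c * ev1 (f w)
    rw [map_mul]

/-- MIR: the mirror image -/
structure StMirQ (B : I → I → ℤ) : Prop where
  hmul : ∀ f g : QSh I B, mir (f * g) = mir g * mir f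
  hL : ∀ (i : I) (f : QSh I B), L i (mir f) = mir (R i f)
  hR : ∀ (i : I) (f : QSh I B), R i (mir f) = mir (L i f)
  hKt : ∀ (i : I) (f : QSh I B), Kt i (mir f) = mir (Kt i f)

/-- STRING: the string formula, left -/
def StString (I : Type) : Prop := ∀ (B : I → I → ℤ) (i : I) (f g : QSh I B) (p q : ℕ) (a α β : ℤ),
  ((L i) ^ (p + 1)) f = 0 → ((L i) ^ (q + 1)) g = 0 →
  Kt i (((L i) ^ p) f) = Tm (-α) • ((L i) ^ p) f → Kt i (((L i) ^ q) g) = Tm (-β) • ((L i) ^ q) g →
  g * f = Tm a • (f * g) →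
  ((L i) ^ q) g * ((L i) ^ p) f = Tm (a - q * α + p * β) • (((L i) ^ p) f * ((L i) ^ q) g)

/-- STRINGR: the string formula, right -/
def StStringR (B : I → I → ℤ) : Prop := ∀ (i : I) (f g : QSh I B) (p q : ℕ) (a α β : ℤ),
  ((R i) ^ (p + 1)) f = 0 → ((R i) ^ (q + 1)) g = 0 →
  Kt i (((R i) ^ p) f) = Tm (-α) • ((R i) ^ p) f → Kt i (((R i) ^ q) g) = Tm (-β) • ((R i) ^ q) g →
  f * g = Tm a • (g * f) →
  ((R i) ^ p) f * ((R i) ^ q) g = Tm (a - q * α + p * β) • (((R i) ^ q) g * ((R i) ^ p) f)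

/-- LIA: linear independence follows from linear independence at `T = 1` -/
def StLia (I : Type) : Prop := ∀ (B : I → I → ℤ) (S : Type) (F : S → QSh I B),
  LinearIndependent ℚ (fun X => evR (F X)) → LinearIndependent ℤ[T;T⁻¹] F

end QSh

end Pool.Agent.KLS
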