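import Pool.Agent.Work.MP_e487d8_al.Y.Gk.Defs
import Pool.Agent.Work.MP_e487d8_al.Bd.B31

/-! MP_e487d8_al, block GK: assembly of the graded Grothendieck ring. -/

set_option autoImplicit false

open scoped LaurentPolynomial

open Pool.Agent.E487.Hopf Pool.Agent.KLSAbs

namespace Pool.Agent.KLS

variable {K I : Type} [Field K] [Fintype I] [DecidableEq I] {D : Datum K I}

/-- the inputs -/
structure GkIn2 (γ : ∀ X : Sm D, Grd D X.rep.M) {Lp : I → ℕ → SMod D} (hC : CFacts D Lp) : Prop where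
  hb : S_basis D
  one : gX γ (Sm.one D) = 1
  gcv : StGcv D
  gev : StGev D
  gjh : StGjh γ
  gwt : StGwt γ
  gtl : StGtl γ hC
  gtr : StGtr γ hC
  ghd : StGhd γ
  ghdp : StGhdp γ
  lia : QSh.StLia I
  str : QSh.StString I
  strr : QSh.StStringR D.fm

namespace GkIn2

variable {γ : ∀ X : Sm D, Grd D X.rep.M} {Lp : I → ℕ → SMod D} {hC : CFacts D Lp}
  (hconv : S_conv D) (G : GkIn2 γ hC)

theorem fdS (X : Sm D) : FdMod D (gS γ X).n (gS γ X).M := X.rep.smp.toFdMod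

include G in
theorem fdC {A B : GM D} (hA : FdMod D A.n A.M) (hB : FdMod D B.n B.M) :
    FdMod D (A.conv B).n (A.conv B).M := Conv.fdMod G.hb hA hB

include G in
theorem gch_mem {V : GM D} (h : FdMod D V.n V.M) :
    V.gch ∈ Submodule.span ℤ[T;T⁻¹] (Set.range (gX γ)) := by
  obtain ⟨p, hp, -, -⟩ := G.gjh V h
  rw [hp]
  exact Finsupp.mem_span_range_iff_exists_finsupp.2 ⟨p, rfl⟩

include G in
theorem mul_mem {x y : QSh I D.fm} (hx : x ∈ Submodule.span ℤ[T;T⁻¹] (Set.range (gX γ)))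
    (hy : y ∈ Submodule.span ℤ[T;T⁻¹] (Set.range (gX γ))) :
    x * y ∈ Submodule.span ℤ[T;T⁻¹] (Set.range (gX γ)) := by
  induction hx using Submodule.span_induction with
  | mem x hx =>
    obtain ⟨X, rfl⟩ := hx
    induction hy using Submodule.span_induction with
    | mem y hy =>
      obtain ⟨Y, rfl⟩ := hy
      have h := G.gcv (gS γ X) (gS γ Y) (fdS X) (fdS Y)
      change (gS γ X).gch * (gS γ Y).gch ∈ _
      rw [← h]
      exact G.gch_mem (G.fdC (fdS X) (fdS Y))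
    | zero => rw [mul_zero]; exact Submodule.zero_mem _
    | add y z _ _ hy hz => rw [mul_add]; exact Submodule.add_mem _ hy hz
    | smul c y _ hy => rw [mul_smul_comm]; exact Submodule.smul_mem _ _ hy
  | zero => rw [zero_mul]; exact Submodule.zero_mem _
  | add y z _ _ hy hz => rw [add_mul]; exact Submodule.add_mem _ hy hz
  | smul c y _ hy => rw [smul_mul_assoc]; exact Submodule.smul_mem _ _ hy

/-- the graded Grothendieck ring -/
noncomputable def GG : Subalgebra ℤ[T;T⁻¹] (QSh I D.fm) :=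
  (Submodule.span ℤ[T;T⁻¹] (Set.range (gX γ))).toSubalgebra
    (by rw [← G.one]; exact Submodule.subset_span ⟨_, rfl⟩) (fun _ _ hx hy => G.mul_mem hx hy)

/-- the class of a graded module -/
noncomputable def kcl (V : GM D) (h : FdMod D V.n V.M) : G.GG := ⟨V.gch, G.gch_mem h⟩

/-- the class of a simple module -/
noncomputable def gg (X : Sm D) : G.GG := ⟨gX γ X, Submodule.subset_span ⟨X, rfl⟩⟩

theorem ev_gX (h : StGev D) (X : Sm D) : QSh.evR (gX γ X) = Sm.chq X := by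
  rw [gX, h (gS γ X) (fdS X)]
  apply Sh.ext'
  intro w
  change ((X.rep.ch w : ℕ) : ℚ) = (X.1 w : ℚ)
  rw [X.ch_rep]

include hconv in
theorem li : LinearIndependent ℤ[T;T⁻¹] G.gg := by
  have h1 : LinearIndependent ℚ (Sm.chq (D := D)) := by
    have h2 := Sm.gr_indep hC hconv
    exact h2.map' (Sm.Gr hC hconv).val.toLinearMap
      (LinearMap.ker_eq_bot.2 (Subtype.val_injective))
  have h3 : LinearIndependent ℤ[T;T⁻¹] (gX γ) := G.lia D.fm (Sm D) (gX γ) (by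
    have h4 : (fun X => QSh.evR (gX γ X)) = Sm.chq := funext fun X => ev_gX G.gev X
    rw [h4]
    exact h1)
  exact LinearIndependent.of_comp G.GG.val.toLinearMap h3

theorem sp : ⊤ ≤ Submodule.span ℤ[T;T⁻¹] (Set.range G.gg) := by
  rintro ⟨x, hx⟩ -
  have hx' : x ∈ Submodule.span ℤ[T;T⁻¹] (Set.range (gX γ)) := hx
  obtain ⟨p, hp⟩ := Finsupp.mem_span_range_iff_exists_finsupp.1 hx'
  refine Finsupp.mem_span_range_iff_exists_finsupp.2 ⟨p, Subtype.ext ?_⟩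
  change G.GG.val.toLinearMap _ = x
  rw [map_finsuppSum]
  exact hp

/-- the basis -/
noncomputable def gb : Module.Basis (Sm D) ℤ[T;T⁻¹] G.GG := Module.Basis.mk (G.li hconv) G.sp

theorem gb_apply (X : Sm D) : G.gb hconv X = G.gg X := Module.Basis.mk_apply _ _ _

theorem repr_kcl {V : GM D} (h : FdMod D V.n V.M) {p : Sm D →₀ ℤ[T;T⁻¹]}
    (hp : V.gch = Finsupp.linearCombination ℤ[T;T⁻¹] (gX γ) p) :
    (G.gb hconv).repr (G.kcl V h) = p := by
  have h1 : G.kcl V h = Finsupp.linearCombination ℤ[T;T⁻¹] (G.gb hconv) p := by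
    apply Subtype.ext
    change V.gch = G.GG.val.toLinearMap _
    rw [hp, Finsupp.linearCombination_apply, Finsupp.linearCombination_apply, map_finsuppSum]
    refine Finsupp.sum_congr fun X _ => ?_
    rw [G.gb_apply]
    rfl
  rw [h1, Module.Basis.repr_linearCombination]

theorem cf_nonneg {V : GM D} (h : FdMod D V.n V.M) (Z : Sm D) (n : ℤ) :
    0 ≤ cfK (G.gb hconv) (G.kcl V h) Z n := by
  obtain ⟨p, hp, h1, -⟩ := G.gjh V h
  rw [cfK, G.repr_kcl hconv h hp]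
  exact h1 Z n

theorem cf_ne {V : GM D} (h : FdMod D V.n V.M) (Z : Sm D) (n : ℤ) :
    cfK (G.gb hconv) (G.kcl V h) Z n ≠ 0 ↔ (gS γ Z).Occ V.toGV n := by
  obtain ⟨p, hp, -, h1⟩ := G.gjh V h
  rw [cfK, G.repr_kcl hconv h hp]
  exact h1 Z n

theorem kcl_mul {A B : GM D} (hA : FdMod D A.n A.M) (hB : FdMod D B.n B.M) :
    G.kcl A hA * G.kcl B hB = G.kcl (A.conv B) (G.fdC hA hB) :=
  Subtype.ext (G.gcv A B hA hB).symm

theorem gb_kcl (X : Sm D) : G.gb hconv X = G.kcl (gS γ X) (fdS X) := G.gb_apply hconv X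

include hconv in
theorem ev_mem (x : G.GG) : QSh.evR x.1 ∈ Sm.Gr hC hconv := by
  obtain ⟨x, hx⟩ := x
  have hx' : x ∈ Submodule.span ℤ[T;T⁻¹] (Set.range (gX γ)) := hx
  change QSh.evR x ∈ _
  clear hx
  induction hx' using Submodule.span_induction with
  | mem x hx =>
    obtain ⟨X, rfl⟩ := hx
    rw [ev_gX G.gev]
    exact Sm.chq_mem hC hconv X
  | zero => rw [map_zero]; exact Subalgebra.zero_mem _
  | add y z _ _ hy hz => rw [map_add]; exact Subalgebra.add_mem _ hy hz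
  | smul c y _ hy => rw [QSh.evR_smul]; exact Subalgebra.smul_mem _ hy _

/-- `T = 1` -/
noncomputable def ev : G.GG →+* Sm.Gr hC hconv :=
  (QSh.evR.comp (G.GG.val : G.GG →+* QSh I D.fm)).codRestrict (Sm.Gr hC hconv)
    (G.ev_mem hconv)

theorem ev_val (x : G.GG) : (G.ev hconv x).1 = QSh.evR x.1 := rfl

theorem lam (i : I) (C Y : Sm D) (a : ℤ)
    (h : G.gb hconv Y * G.gb hconv C =
      (LaurentPolynomial.T a : ℤ[T;T⁻¹]) • (G.gb hconv C * G.gb hconv Y)) :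
    G.gb hconv (Sm.E hC i Y) * G.gb hconv (Sm.E hC i C) = (LaurentPolynomial.T (a -
      (Sm.eps hC i Y : ℤ) * sumW (fun j => D.d i * D.A i j) (Sm.wt (Sm.E hC i C)) +
      (Sm.eps hC i C : ℤ) * sumW (fun j => D.d i * D.A i j) (Sm.wt (Sm.E hC i Y))) :
      ℤ[T;T⁻¹]) • (G.gb hconv (Sm.E hC i C) * G.gb hconv (Sm.E hC i Y)) := by
  simp only [G.gb_apply] at h ⊢
  apply Subtype.ext
  change gX γ (Sm.E hC i Y) * gX γ (Sm.E hC i C) = Tm _ • (gX γ (Sm.E hC i C) *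
    gX γ (Sm.E hC i Y))
  have h' : gX γ Y * gX γ C = Tm a • (gX γ C * gX γ Y) := congrArg Subtype.val h
  obtain ⟨⟨φ, hφ, e1⟩, e2⟩ := G.gtl i C
  obtain ⟨⟨ψ, hψ, e3⟩, e4⟩ := G.gtl i Y
  have k1 : ∀ (Z W : Sm D) (c : ℤ[T;T⁻¹]) (n : ℕ), ((QSh.L i) ^ n) (gX γ Z) = c • gX γ W →
      QSh.Kt i (((QSh.L i) ^ n) (gX γ Z)) =
        Tm (-sumW (fun j => D.d i * D.A i j) (Sm.wt W)) • ((QSh.L i) ^ n) (gX γ Z) := by
    intro Z W c n hn
    rw [hn, map_smul, G.gwt i W, smul_comm]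
  have h2 := G.str D.fm i (gX γ C) (gX γ Y) _ _ a _ _ e2 e4 (k1 C _ φ _ e1) (k1 Y _ ψ _ e3) h'
  rw [e1, e3, smul_mul_smul_comm, smul_mul_smul_comm, mul_comm φ ψ, smul_comm] at h2
  exact QSh.smul_cancel (mul_ne_zero hψ hφ) h2

theorem lam' (i : I) (C Y : Sm D) (a : ℤ)
    (h : G.gb hconv C * G.gb hconv Y =
      (LaurentPolynomial.T a : ℤ[T;T⁻¹]) • (G.gb hconv Y * G.gb hconv C)) :
    G.gb hconv (In.E' hC i C) * G.gb hconv (In.E' hC i Y) = (LaurentPolynomial.T (a -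
      (In.eps' hC i Y : ℤ) * sumW (fun j => D.d i * D.A i j) (Sm.wt (In.E' hC i C)) +
      (In.eps' hC i C : ℤ) * sumW (fun j => D.d i * D.A i j) (Sm.wt (In.E' hC i Y))) :
      ℤ[T;T⁻¹]) • (G.gb hconv (In.E' hC i Y) * G.gb hconv (In.E' hC i C)) := by
  simp only [G.gb_apply] at h ⊢
  apply Subtype.ext
  change gX γ (In.E' hC i C) * gX γ (In.E' hC i Y) = Tm _ • (gX γ (In.E' hC i Y) *
    gX γ (In.E' hC i C))
  have h' : gX γ C * gX γ Y = Tm a • (gX γ Y * gX γ C) := congrArg Subtype.val h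
  obtain ⟨⟨φ, hφ, e1⟩, e2⟩ := G.gtr i C
  obtain ⟨⟨ψ, hψ, e3⟩, e4⟩ := G.gtr i Y
  have k1 : ∀ (Z W : Sm D) (c : ℤ[T;T⁻¹]) (n : ℕ), ((QSh.R i) ^ n) (gX γ Z) = c • gX γ W →
      QSh.Kt i (((QSh.R i) ^ n) (gX γ Z)) =
        Tm (-sumW (fun j => D.d i * D.A i j) (Sm.wt W)) • ((QSh.R i) ^ n) (gX γ Z) := by
    intro Z W c n hn
    rw [hn, map_smul, G.gwt i W, smul_comm]
  have h2 := G.strr i (gX γ C) (gX γ Y) _ _ a _ _ e2 e4 (k1 C _ φ _ e1) (k1 Y _ ψ _ e3) h'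
  rw [e1, e3, smul_mul_smul_comm, smul_mul_smul_comm, mul_comm ψ φ, smul_comm] at h2
  exact QSh.smul_cancel (mul_ne_zero hφ hψ) h2

/-- the graded part of the interface -/
noncomputable def grPart : In.GrPart hC hconv G.GG where
  gb := G.gb hconv
  gb_one := by rw [G.gb_apply]; exact Subtype.ext G.one
  gb_pos X Y Z n := by
    rw [G.gb_kcl, G.gb_kcl, G.kcl_mul]
    exact G.cf_nonneg hconv _ Z n
  ev := G.ev hconv
  ev_gb X := by
    apply Subtype.ext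
    rw [G.ev_val, G.gb_apply, Sm.bas_apply]
    exact ev_gX G.gev X
  ev_T n V := by
    apply Subtype.ext
    rw [G.ev_val, G.ev_val]
    change QSh.evR (Tm n • V.1) = _
    rw [QSh.evR_smul, ev1_T, one_smul]
  lam_E i C Y _ a _ h := G.lam hconv i C Y a h
  lam_E' i C Y _ a _ h := G.lam' hconv i C Y a h
  hd_deg B := by
    obtain ⟨P, hP, h⟩ := G.ghd B
    refine ⟨G.kcl P hP, G.cf_nonneg hconv hP, fun X Z hXZ => ?_⟩
    obtain ⟨s, D', h1, h2, h3⟩ := h X Z hXZ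
    refine ⟨s, D', ?_, ?_, fun W n hW => ?_⟩
    · rw [G.gb_kcl, G.gb_kcl, G.kcl_mul, G.cf_ne]
      exact h1
    · rw [G.gb_kcl, G.kcl_mul, G.cf_ne]
      exact h2
    · rw [G.gb_kcl, G.gb_kcl, G.kcl_mul, G.cf_ne] at hW
      obtain ⟨e, he⟩ := h3 W n hW
      refine ⟨e, ?_⟩
      rw [G.gb_kcl, G.kcl_mul, G.cf_ne]
      exact he
  hd_deg' B := by
    obtain ⟨P, hP, h⟩ := G.ghdp B
    refine ⟨G.kcl P hP, G.cf_nonneg hconv hP, fun X Z hXZ => ?_⟩
    obtain ⟨s, D', h1, h2, h3⟩ := h X Z hXZ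
    refine ⟨s, D', ?_, ?_, fun W n hW => ?_⟩
    · rw [G.gb_kcl, G.gb_kcl, G.kcl_mul, G.cf_ne]
      exact h1
    · rw [G.gb_kcl, G.kcl_mul, G.cf_ne]
      exact h2
    · rw [G.gb_kcl, G.gb_kcl, G.kcl_mul, G.cf_ne] at hW
      obtain ⟨e, he⟩ := h3 W n hW
      refine ⟨e, ?_⟩
      rw [G.gb_kcl, G.kcl_mul, G.cf_ne]
      exact he

end GkIn2

end Pool.Agent.KLS
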