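import Pool.Agent.Work.MP_e487d8_al.Y.Gk.AlgB
import Pool.Agent.Work.MP_e487d8_al.Y.In.Defs
import Pool.Agent.Work.MP_e487d8_al.Bd.B43

/-! MP_e487d8_al, block GK: the graded Grothendieck ring; definitions and statements.

`V.gch` is the graded character of the graded module `V`, with values in `ℤ[T;T⁻¹]`. -/

set_option autoImplicit false

open scoped LaurentPolynomial

open Pool.Agent.E487.Hopf Pool.Agent.KLSAbs

namespace Pool.Agent.KLS

variable {K I : Type} [Field K] [Fintype I] [DecidableEq I] {D : Datum K I}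

/-- the vectors with the word `w` and the degree `d` -/
def wsp {M : Type} [AddCommGroup M] [Module K M] [Module (KLRAlg D) M]
    [IsScalarTower K (KLRAlg D) M] (g : Grd D M) (w : List I) (d : ℤ) : Submodule K M where
  carrier := {u | D.eW w • u = u ∧ g.Hm d u}
  add_mem' := by
    rintro u v ⟨h1, h2⟩ ⟨h3, h4⟩
    exact ⟨by rw [smul_add, h1, h3], h2.add h4⟩
  zero_mem' := ⟨smul_zero _, Grd.Hm.zero⟩
  smul_mem' := by
    rintro r u ⟨h1, h2⟩
    refine ⟨?_, h2.smulK r⟩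
    rw [smul_comm, h1]

theorem mem_wsp {M : Type} [AddCommGroup M] [Module K M] [Module (KLRAlg D) M]
    [IsScalarTower K (KLRAlg D) M] {g : Grd D M} {w : List I} {d : ℤ} {u : M} :
    u ∈ wsp g w d ↔ D.eW w • u = u ∧ g.Hm d u := Iff.rfl

/-- the dimension of the word space of `w` in the degree `d` -/
noncomputable def GM.gdm (V : GM D) (w : List I) (d : ℤ) : ℕ :=
  if w.length = V.n then Module.finrank K (wsp V.g w d) else 0

/-- the graded character -/
noncomputable def GM.gch (V : GM D) : QSh I D.fm := fun w => ∑ᶠ d : ℤ, (V.gdm w d : ℤ) • Tm d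

/-- a basis of homogeneous vectors with words -/
structure GM.HB (V : GM D) (ι : Type) where
  b : Module.Basis ι K V.M
  wd : ι → List I
  dg : ι → ℤ
  len : ∀ i, (wd i).length = V.n
  hw : ∀ i, D.eW (wd i) • b i = b i
  hd : ∀ i, V.g.Hm (dg i) (b i)

/-- the degree of the shuffle `w` at the word `κ` -/
def shd (D : Datum K I) : List Bool → List I → ℤ
  | false :: w, _ :: κ => shd D w κ
  | true :: w, i :: κ => shd D w κ - bw D.fm i (sel false w κ)
  | _, _ => 0

/-- the word with the letters of `μ` at the places `false` and the letters of `ν` at the places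
`true` -/
def mrg : List Bool → List I → List I → List I
  | false :: w, i :: μ, ν => i :: mrg w μ ν
  | true :: w, μ, i :: ν => i :: mrg w μ ν
  | _, _, _ => []

section

variable (D)

/-- GCF: the coefficients of the graded character -/
def StGcf : Prop := ∀ V : GM D, FdMod D V.n V.M → ∀ w d, (V.gch w).coeff d = (V.gdm w d : ℤ)

/-- GHB: there is a basis of homogeneous vectors with words -/
def StGhb : Prop := ∀ V : GM D, FdMod D V.n V.M → ∃ (ι : Type) (_ : Fintype ι), Nonempty (V.HB ι)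

/-- GHC: the graded character from a basis -/
def StGhc : Prop := ∀ (V : GM D) (ι : Type) [Fintype ι] (B : V.HB ι) (w : List I),
  V.gch w = ∑ i, if B.wd i = w then Tm (B.dg i) else 0

/-- GTW: word and degree of a vector of the shuffle basis -/
def StGtw : Prop := ∀ (A B : GM D) (w : Shf A.n B.n) (μ ν : List I) (u : A.M) (v : B.M) (a b : ℤ),
  μ.length = A.n → ν.length = B.n → D.eW μ • u = u → D.eW ν • v = v → A.g.Hm a u → B.g.Hm b v →
  (mrg w.1 μ ν).length = A.n + B.n ∧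
  (∀ κ : List I, κ.length = A.n + B.n →
    (mrg w.1 μ ν = κ ↔ sel false w.1 κ = μ ∧ sel true w.1 κ = ν)) ∧
  D.eW (mrg w.1 μ ν) • D.tw w.1 • Conv.mk D A.n A.M B.M u v =
    D.tw w.1 • Conv.mk D A.n A.M B.M u v ∧
  (A.conv B).g.Hm (a + b + shd D w.1 (mrg w.1 μ ν)) (D.tw w.1 • Conv.mk D A.n A.M B.M u v)

/-- GSM: the quantum shuffle product as a sum over shuffles -/
def StGsm : Prop := ∀ (κ : List I) (m n : ℕ) (f g : QSh I D.fm),
  (∀ ν : List I, ν.length ≠ m → f ν = 0) → (∀ ν : List I, ν.length ≠ n → g ν = 0) →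
  (κ.length = m + n → QSh.sm κ f g =
    ∑ w : Shf m n, Tm (shd D w.1 κ) * (f (sel false w.1 κ) * g (sel true w.1 κ))) ∧
  (κ.length ≠ m + n → QSh.sm κ f g = 0)

/-- GCV: the graded character of a convolution product -/
def StGcv : Prop := ∀ A B : GM D, FdMod D A.n A.M → FdMod D B.n B.M →
  (A.conv B).gch = A.gch * B.gch

/-- GEX: the graded character and exact sequences -/
def StGex : Prop := ∀ (V₁ V V₂ : GM D) (i : V₁.M →ₗ[KLRAlg D] V.M) (q : V.M →ₗ[KLRAlg D] V₂.M)
  (a b : ℤ), FdMod D V.n V.M → V₁.n = V.n → V₂.n = V.n → Function.Injective i →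
    Function.Surjective q → LinearMap.ker q = LinearMap.range i → HomDeg V₁.g V.g a i →
    HomDeg V.g V₂.g b q → V.gch = Tm a • V₁.gch + Tm (-b) • V₂.gch

/-- GEV: the graded character at `T = 1` -/
def StGev : Prop := ∀ V : GM D, FdMod D V.n V.M → QSh.evR V.gch = chrQ D V.n V.M

/-- GZC: vanishing of the graded character -/
def StGzc : Prop := ∀ V : GM D, FdMod D V.n V.M → ∀ w, V.gch w = 0 ↔ chr D V.n V.M w = 0

/-- GAM: a choice of gradings of the simple modules -/
def StGam : Prop := ∃ γ : ∀ X : Sm D, Grd D X.rep.M,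
  ((Sm.one D).rep.gm (γ (Sm.one D))).gch = 1

end

section

variable (γ : ∀ X : Sm D, Grd D X.rep.M)

/-- the graded module with the class `X` -/
noncomputable def gS (X : Sm D) : GM D := X.rep.gm (γ X)

/-- the graded character of the simple module `X` -/
noncomputable def gX (X : Sm D) : QSh I D.fm := (gS γ X).gch

/-- GWT: the weight -/
def StGwt : Prop := ∀ (i : I) (X : Sm D), QSh.Kt i (gX γ X) =
  Tm (-sumW (fun j => D.d i * D.A i j) (Sm.wt X)) • gX γ X

/-- GSB: a graded module has a graded simple submodule -/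
def StGsb : Prop := ∀ V : GM D, FdMod D V.n V.M → Nontrivial V.M →
  ∃ (X : Sm D) (f : X.rep.M →ₗ[KLRAlg D] V.M) (s : ℤ), Function.Injective f ∧ X.rep.n = V.n ∧
    HomDeg (γ X) V.g s f

/-- GOC: subquotients of simple modules -/
def StGoc : Prop := ∀ (Z X : Sm D) (d : ℤ), (gS γ Z).Occ (gS γ X).toGV d ↔ Z = X ∧ d = 0

/-- GJH: the composition series of a graded module -/
def StGjh : Prop := ∀ V : GM D, FdMod D V.n V.M → ∃ p : Sm D →₀ ℤ[T;T⁻¹],
  V.gch = Finsupp.linearCombination ℤ[T;T⁻¹] (gX γ) p ∧ (∀ Z d, 0 ≤ (p Z).coeff d) ∧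
    ∀ Z d, (p Z).coeff d ≠ 0 ↔ (gS γ Z).Occ V.toGV d

variable {Lp : I → ℕ → SMod D} (hC : CFacts D Lp)

/-- GTL: the top part at the left end -/
def StGtl : Prop := ∀ (i : I) (X : Sm D), (∃ φ : ℤ[T;T⁻¹], φ ≠ 0 ∧
  ((QSh.L i) ^ (Sm.eps hC i X)) (gX γ X) = φ • gX γ (Sm.E hC i X)) ∧
  ((QSh.L i) ^ (Sm.eps hC i X + 1)) (gX γ X) = 0

/-- GTR: the top part at the right end -/
def StGtr : Prop := ∀ (i : I) (X : Sm D), (∃ φ : ℤ[T;T⁻¹], φ ≠ 0 ∧
  ((QSh.R i) ^ (In.eps' hC i X)) (gX γ X) = φ • gX γ (In.E' hC i X)) ∧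
  ((QSh.R i) ^ (In.eps' hC i X + 1)) (gX γ X) = 0

/-- GHD: the degrees of the constituents of `X ∘ B` -/
def StGhd : Prop := ∀ B : Sm D, ∃ P : GM D, FdMod D P.n P.M ∧
  ∀ X Z : Sm D, In.Hd1 X B Z → ∃ s D' : ℤ,
    (gS γ Z).Occ ((gS γ X).conv (gS γ B)).toGV s ∧
    (gS γ Z).Occ (P.conv (gS γ X)).toGV (s + D') ∧
    ∀ (W : Sm D) (n : ℤ), (gS γ W).Occ ((gS γ X).conv (gS γ B)).toGV n →
      ∃ e : ℕ, (gS γ W).Occ (P.conv (gS γ X)).toGV (n + D' - e)

/-- GHDP: the mirror of GHD -/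
def StGhdp : Prop := ∀ B : Sm D, ∃ P : GM D, FdMod D P.n P.M ∧
  ∀ X Z : Sm D, In.Hd1 B X Z → ∃ s D' : ℤ,
    (gS γ Z).Occ ((gS γ B).conv (gS γ X)).toGV s ∧
    (gS γ Z).Occ ((gS γ X).conv P).toGV (s + D') ∧
    ∀ (W : Sm D) (n : ℤ), (gS γ W).Occ ((gS γ B).conv (gS γ X)).toGV n →
      ∃ e : ℕ, (gS γ W).Occ ((gS γ X).conv P).toGV (n + D' - e)

end

end Pool.Agent.KLS
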