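import Pool.Agent.Work.MP_e487d8_al.Y.Gk.Defs

/-! MP_e487d8_al, block GK, item GAM: a choice of gradings of the simple modules. -/

set_option autoImplicit false

open scoped LaurentPolynomial

open Pool.Agent.E487.Hopf Pool.Agent.KLSAbs

namespace Pool.Agent.KLS

variable {K I : Type} [Field K] [Fintype I] [DecidableEq I]

namespace Gam

variable {D : Datum K I}

/-- the graded character of a module of dimension one without strands, in the degree `0` -/
theorem gch_triv (h1 : StGhb D) (h2 : StGhc D) (V : GM D) (hV : FdMod D V.n V.M) (hn : V.n = 0)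
    (hr : Module.finrank K V.M = 1) (h0 : ∀ u : V.M, V.g.Hm 0 u) : V.gch = 1 := by
  obtain ⟨ι, hι, ⟨B⟩⟩ := h1 V hV
  have hw : ∀ i, B.wd i = [] := fun i => List.eq_nil_of_length_eq_zero ((B.len i).trans hn)
  have hd : ∀ i, B.dg i = 0 := fun i =>
    Grd.Hm.deg_unique (B.hd i) (h0 (B.b i)) (B.b.ne_zero i)
  have hc : Fintype.card ι = 1 := by rw [← hr, Module.finrank_eq_card_basis B.b]
  apply QSh.ext'
  intro w
  rw [h2 V ι B w]
  cases w with
  | nil =>
    rw [QSh.one_nil, Finset.sum_congr rfl (fun i _ => by rw [if_pos (hw i), hd i]),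
      Finset.sum_const, Finset.card_univ, hc, one_smul, Tm_zero]
  | cons i w =>
    rw [QSh.one_cons]
    refine Finset.sum_eq_zero fun j _ => ?_
    rw [if_neg]
    rw [hw j]
    exact (List.cons_ne_nil i w).symm

end Gam

theorem I_GAM (D : Datum K I) (hb : S_basis D) (h1 : StGhb D) (h2 : StGhc D) : StGam D := by
  classical
  have hs : IsStrand D 0 (Sm.one D).rep.M := by
    have h := (Sm.one D).rep.smp.strand
    have h0 : (Sm.one D).rep.n = 0 := Sm.len_one
    rwa [h0] at h
  have hsim := (Sm.one D).rep.smp.simple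
  let g0 : Grd D (Sm.one D).rep.M :=
    Grd.triv (fun k u => hs.x_smul_zero (Nat.zero_le k) u)
      (fun k u => hs.t_smul_zero (Nat.zero_le _) u)
  let γ0 : ∀ X : Sm D, Grd D X.rep.M := fun X =>
    Classical.choice (gradable hb X.rep.n X.rep.M X.rep.smp)
  refine ⟨Function.update γ0 (Sm.one D) g0, ?_⟩
  rw [Function.update_self]
  have hr : Module.finrank K (Sm.one D).rep.M = 1 := finrank_one_of_strand hs
  have h0 : ∀ u : (Sm.one D).rep.M, g0.Hm 0 u := fun u => rfl
  exact Gam.gch_triv h1 h2 ((Sm.one D).rep.gm g0) (Sm.one D).rep.smp.toFdMod Sm.len_one hr h0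

end Pool.Agent.KLS
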