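import Pool.Agent.Work.MP_e487d8_al.Y.Gk.Defs

/-! MP_e487d8_al, block GK, item GCV: the graded character of a convolution product. -/

set_option autoImplicit false

open scoped LaurentPolynomial TensorProduct

open Pool.Agent.E487.Hopf Pool.Agent.KLSAbs

namespace Pool.Agent.KLS

variable {K I : Type} [Field K] [Fintype I] [DecidableEq I] {D : Datum K I}

namespace GcvAux

/-- the basis of the convolution product -/
noncomputable def cbas (hb : S_basis D) {m n : ℕ} {M N : Type} [AddCommGroup M] [Module K M]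
    [Module (KLRAlg D) M] [IsScalarTower K (KLRAlg D) M] [AddCommGroup N] [Module K N]
    [Module (KLRAlg D) N] [IsScalarTower K (KLRAlg D) N] (hM : IsStrand D m M)
    (hN : IsStrand D n N) {ι ι' : Type} (b : Module.Basis ι K M) (b' : Module.Basis ι' K N) :
    Module.Basis (Σ _ : Shf m n, ι × ι') K (Conv D m M N) :=
  (Finsupp.basis fun _ : Shf m n => b.tensorProduct b').map
    (LinearEquiv.ofBijective (convSum D m n M N) (hb m n M N hM hN))

theorem cbas_apply (hb : S_basis D) {m n : ℕ} {M N : Type} [AddCommGroup M] [Module K M]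
    [Module (KLRAlg D) M] [IsScalarTower K (KLRAlg D) M] [AddCommGroup N] [Module K N]
    [Module (KLRAlg D) N] [IsScalarTower K (KLRAlg D) N] (hM : IsStrand D m M)
    (hN : IsStrand D n N) {ι ι' : Type} (b : Module.Basis ι K M) (b' : Module.Basis ι' K N)
    (w : Shf m n) (i : ι) (j : ι') :
    cbas hb hM hN b b' ⟨w, i, j⟩ = D.tw w.1 • Conv.mk D m M N (b i) (b' j) := by
  unfold cbas
  rw [Module.Basis.map_apply, Finsupp.coe_basis]
  change convSum D m n M N (Finsupp.single w ((b.tensorProduct b') (i, j))) = _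
  rw [Module.Basis.tensorProduct_apply, convSum_single]

/-- the basis of the convolution product with words and degrees -/
noncomputable def hbc (hb : S_basis D) (h3 : StGtw D) {A B : GM D} {ι ι' : Type}
    (b1 : A.HB ι) (b2 : B.HB ι') : (A.conv B).HB (Σ _ : Shf A.n B.n, ι × ι') where
  b := cbas hb A.strand B.strand b1.b b2.b
  wd := fun x => mrg x.1.1 (b1.wd x.2.1) (b2.wd x.2.2)
  dg := fun x => b1.dg x.2.1 + b2.dg x.2.2 + shd D x.1.1 (mrg x.1.1 (b1.wd x.2.1) (b2.wd x.2.2))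
  len := fun x => (h3 A B x.1 (b1.wd x.2.1) (b2.wd x.2.2) (b1.b x.2.1) (b2.b x.2.2) (b1.dg x.2.1)
    (b2.dg x.2.2) (b1.len _) (b2.len _) (b1.hw _) (b2.hw _) (b1.hd _) (b2.hd _)).1
  hw := fun x => by
    have h := (h3 A B x.1 (b1.wd x.2.1) (b2.wd x.2.2) (b1.b x.2.1) (b2.b x.2.2) (b1.dg x.2.1)
      (b2.dg x.2.2) (b1.len _) (b2.len _) (b1.hw _) (b2.hw _) (b1.hd _) (b2.hd _)).2.2.1
    rw [← cbas_apply hb A.strand B.strand b1.b b2.b] at h
    exact h
  hd := fun x => by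
    have h := (h3 A B x.1 (b1.wd x.2.1) (b2.wd x.2.2) (b1.b x.2.1) (b2.b x.2.2) (b1.dg x.2.1)
      (b2.dg x.2.2) (b1.len _) (b2.len _) (b1.hw _) (b2.hw _) (b1.hd _) (b2.hd _)).2.2.2
    rw [← cbas_apply hb A.strand B.strand b1.b b2.b] at h
    exact h

theorem gch_ne (h2 : StGhc D) {A : GM D} {ι : Type} [Fintype ι] (b : A.HB ι) (ν : List I)
    (h : ν.length ≠ A.n) : A.gch ν = 0 := by
  rw [h2 A ι b ν]
  refine Finset.sum_eq_zero fun i _ => ?_
  rw [if_neg]
  rintro rfl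
  exact h (b.len i)

end GcvAux

open GcvAux in
theorem I_GCV (D : Datum K I) (hb : S_basis D) (h1 : StGhb D) (h2 : StGhc D) (h3 : StGtw D)
    (h4 : StGsm D) : StGcv D := by
  classical
  intro A B hA hB
  obtain ⟨ι, _, ⟨b1⟩⟩ := h1 A hA
  obtain ⟨ι', _, ⟨b2⟩⟩ := h1 B hB
  apply QSh.ext'
  intro κ
  have h5 := h4 κ A.n B.n A.gch B.gch (fun ν hν => gch_ne h2 b1 ν hν)
    (fun ν hν => gch_ne h2 b2 ν hν)
  rw [QSh.mul_apply]
  by_cases hκ : κ.length = A.n + B.n
  · rw [h5.1 hκ, h2 (A.conv B) _ (hbc hb h3 b1 b2) κ, Fintype.sum_sigma]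
    refine Finset.sum_congr rfl fun w _ => ?_
    rw [h2 A ι b1, h2 B ι' b2, Finset.sum_mul_sum, Fintype.sum_prod_type, Finset.mul_sum]
    refine Finset.sum_congr rfl fun i _ => ?_
    rw [Finset.mul_sum]
    refine Finset.sum_congr rfl fun j _ => ?_
    have h := (h3 A B w (b1.wd i) (b2.wd j) (b1.b i) (b2.b j) (b1.dg i) (b2.dg j) (b1.len _)
      (b2.len _) (b1.hw _) (b2.hw _) (b1.hd _) (b2.hd _)).2.1 κ hκ
    change (if mrg w.1 (b1.wd i) (b2.wd j) = κ then Tm (b1.dg i + b2.dg j +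
      shd D w.1 (mrg w.1 (b1.wd i) (b2.wd j))) else 0) = _
    by_cases hm : mrg w.1 (b1.wd i) (b2.wd j) = κ
    · obtain ⟨hs, ht⟩ := h.1 hm
      rw [if_pos hm, if_pos hs.symm, if_pos ht.symm, hm, Tm_add, Tm_add, mul_comm]
    · rw [if_neg hm]
      by_cases hs : b1.wd i = sel false w.1 κ
      · by_cases ht : b2.wd j = sel true w.1 κ
        · exact absurd (h.2 ⟨hs.symm, ht.symm⟩) hm
        · rw [if_neg ht, mul_zero, mul_zero]
      · rw [if_neg hs, zero_mul, mul_zero]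
  · rw [h5.2 hκ]
    exact gch_ne h2 (hbc hb h3 b1 b2) κ hκ

end Pool.Agent.KLS
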