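import Pool.Agent.Work.MP_e487d8_al.Y.Gk.Defs

/-! MP_e487d8_al, block GK: the graded character at `T = 1`. -/

set_option autoImplicit false

open scoped LaurentPolynomial

open Pool.Agent.E487.Hopf Pool.Agent.KLSAbs

namespace Pool.Agent.KLS

variable {K I : Type} [Field K] [Fintype I] [DecidableEq I]

namespace XGEV

variable {D : Datum K I}

theorem eW_smul_b {V : GM D} {ι : Type} (B : V.HB ι) {w : List I} (hl : w.length = V.n) (i : ι) :
    D.eW w • B.b i = if B.wd i = w then B.b i else 0 := by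
  split_ifs with h
  · rw [← h]
    exact B.hw i
  · rw [← B.hw i, ← mul_smul, D.eW_ne w (B.wd i) (by rw [hl, B.len i]) (fun h' => h h'.symm),
      zero_smul]

theorem wordSp_eq {V : GM D} {ι : Type} [Fintype ι] (B : V.HB ι) {w : List I}
    (hl : w.length = V.n) :
    wordSp D V.M w = Submodule.span K (Set.range fun i : {i // B.wd i = w} => B.b i.1) := by
  apply le_antisymm
  · intro u hu
    rw [mem_wordSp] at hu
    rw [← hu, ← B.b.sum_repr u, Finset.smul_sum]
    refine Submodule.sum_mem _ fun i _ => ?_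
    rw [smul_comm, eW_smul_b B hl i]
    split_ifs with h
    · exact Submodule.smul_mem _ _ (Submodule.subset_span ⟨⟨i, h⟩, rfl⟩)
    · rw [smul_zero]
      exact Submodule.zero_mem _
  · rw [Submodule.span_le]
    rintro _ ⟨⟨i, hi⟩, rfl⟩
    change B.b i ∈ wordSp D V.M w
    rw [mem_wordSp, eW_smul_b B hl i, if_pos hi]

theorem chr_hb {V : GM D} {ι : Type} [Fintype ι] (B : V.HB ι) (w : List I) :
    chr D V.n V.M w = Fintype.card {i // B.wd i = w} := by
  by_cases hl : w.length = V.n
  · rw [chr_eq hl, wordSp_eq B hl]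
    exact finrank_span_eq_card (B.b.linearIndependent.comp Subtype.val Subtype.val_injective)
  · rw [chr_of_ne hl]
    symm
    rw [Fintype.card_eq_zero_iff]
    exact ⟨fun i => hl (by rw [← i.2, B.len i.1])⟩

end XGEV

theorem I_GEV (D : Datum K I) (h1 : StGhb D) (h2 : StGhc D) : StGev D := by
  intro V hV
  obtain ⟨ι, hι, ⟨B⟩⟩ := h1 V hV
  apply Sh.ext'
  intro w
  rw [QSh.evR_apply, chrQ_apply, h2 V ι B w, map_sum, XGEV.chr_hb B w, Fintype.card_subtype,
    Finset.card_eq_sum_ones, Finset.sum_filter, Nat.cast_sum]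
  refine Finset.sum_congr rfl fun i _ => ?_
  split_ifs with h
  · rw [ev1_T, Nat.cast_one]
  · rw [map_zero, Nat.cast_zero]

end Pool.Agent.KLS
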