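import Pool.Agent.Work.MP_e487d8_al.Y.Gk.Defs

/-! MP_e487d8_al, block GK: the graded character and exact sequences. -/

set_option autoImplicit false

open scoped LaurentPolynomial

open Pool.Agent.E487.Hopf Pool.Agent.KLSAbs

namespace Pool.Agent.KLS

variable {K I : Type} [Field K] [Fintype I] [DecidableEq I]

namespace PGEX

variable {D : Datum K I}

variable {M M₁ M₂ N : Type} [AddCommGroup M] [Module K M] [Module (KLRAlg D) M]
  [IsScalarTower K (KLRAlg D) M] [AddCommGroup N] [Module K N] [Module (KLRAlg D) N]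
  [IsScalarTower K (KLRAlg D) N] [AddCommGroup M₁] [Module K M₁] [Module (KLRAlg D) M₁]
  [IsScalarTower K (KLRAlg D) M₁] [AddCommGroup M₂] [Module K M₂] [Module (KLRAlg D) M₂]
  [IsScalarTower K (KLRAlg D) M₂]

/-- homogeneous maps commute with the projections -/
theorem hd_pr {gM : Grd D M} {gN : Grd D N} {s : ℤ} {f : M →ₗ[KLRAlg D] N}
    (hf : HomDeg gM gN s f) (d : ℤ) (u : M) : gN.pr (d + s) (f u) = f (gM.pr d u) := by
  rw [Grd.pr_apply, hf u, Lau.co_shift, Lau.co_map, Grd.pr_apply]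

theorem pr_shn_eW (g : Grd D M) (d : ℤ) (k : ℕ) (ν : List I) (u : M) :
    g.pr d (D.shn k (D.eW ν) • u) = D.shn k (D.eW ν) • g.pr d u := by
  induction ν generalizing k u with
  | nil => rw [D.eW_nil, map_one, one_smul, one_smul]
  | cons i ν ih =>
    rw [D.eW_cons, map_mul, D.shn_e, D.shn_shn, mul_smul, mul_smul, g.pr_e, ih]

theorem pr_eW (g : Grd D M) (d : ℤ) (ν : List I) (u : M) :
    g.pr d (D.eW ν • u) = D.eW ν • g.pr d u := by
  have h := pr_shn_eW g d 0 ν u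
  rwa [D.shn_zero] at h

theorem mem_wsp_proj (g : Grd D M) (w : List I) (d : ℤ) (u : M) :
    D.eW w • g.pr d u ∈ wsp g w d := by
  rw [mem_wsp]
  refine ⟨?_, ?_⟩
  · rw [← mul_smul, D.eW_idem]
  · rw [Grd.hm_iff, pr_eW, g.pr_pr, if_pos rfl]

theorem proj_of_mem {g : Grd D M} {w : List I} {d : ℤ} {u : M} (h : u ∈ wsp g w d) :
    D.eW w • g.pr d u = u := by
  obtain ⟨h1, h2⟩ := mem_wsp.1 h
  rw [Grd.hm_iff.1 h2, h1]

theorem map_wsp {gM : Grd D M} {gN : Grd D N} {s : ℤ} {f : M →ₗ[KLRAlg D] N}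
    (hf : HomDeg gM gN s f) {w : List I} {d : ℤ} {u : M} (h : u ∈ wsp gM w d) :
    f u ∈ wsp gN w (d + s) := by
  obtain ⟨h1, h2⟩ := mem_wsp.1 h
  rw [mem_wsp]
  refine ⟨by rw [← map_smul, h1], ?_⟩
  rw [Grd.hm_iff, hd_pr hf, Grd.hm_iff.1 h2]

/-- dimensions of the word spaces in an exact sequence -/
theorem finrank_exact [FiniteDimensional K M] {g₁ : Grd D M₁} {g : Grd D M} {g₂ : Grd D M₂}
    {a b : ℤ} {i : M₁ →ₗ[KLRAlg D] M} {q : M →ₗ[KLRAlg D] M₂} (hi : HomDeg g₁ g a i)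
    (hq : HomDeg g g₂ b q) (hi' : Function.Injective i) (hq' : Function.Surjective q)
    (he : LinearMap.ker q = LinearMap.range i) (w : List I) (d : ℤ) :
    Module.finrank K (wsp g w d) =
      Module.finrank K (wsp g₁ w (d - a)) + Module.finrank K (wsp g₂ w (d + b)) := by
  let φ : wsp g w d →ₗ[K] wsp g₂ w (d + b) :=
    ((Conv.toK q).comp (wsp g w d).subtype).codRestrict _ fun u => map_wsp hq u.2
  let ψ : wsp g₁ w (d - a) →ₗ[K] wsp g w d :=
    ((Conv.toK i).comp (wsp g₁ w (d - a)).subtype).codRestrict _ fun u => by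
      have h := map_wsp hi u.2
      rw [sub_add_cancel] at h
      exact h
  have hφ : ∀ u, ((φ u : wsp g₂ w (d + b)) : M₂) = q u.1 := fun u => rfl
  have hψ : ∀ u, ((ψ u : wsp g w d) : M) = i u.1 := fun u => rfl
  have hsurj : Function.Surjective φ := by
    rintro ⟨v, hv⟩
    obtain ⟨u, rfl⟩ := hq' v
    refine ⟨⟨D.eW w • g.pr d u, mem_wsp_proj g w d u⟩, Subtype.ext ?_⟩
    rw [hφ]
    change q (D.eW w • g.pr d u) = q u
    rw [map_smul, ← hd_pr hq]
    exact proj_of_mem hv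
  have hinj : Function.Injective ψ := fun u v h => Subtype.ext (hi' (congrArg Subtype.val h))
  have hker : LinearMap.ker φ = LinearMap.range ψ := by
    apply le_antisymm
    · rintro ⟨u, hu⟩ hk
      have h1 : q u = 0 := congrArg Subtype.val (LinearMap.mem_ker.1 hk)
      have h2 : u ∈ LinearMap.ker q := h1
      rw [he] at h2
      obtain ⟨v, hv⟩ := h2
      refine ⟨⟨D.eW w • g₁.pr (d - a) v, mem_wsp_proj g₁ w (d - a) v⟩, Subtype.ext ?_⟩
      rw [hψ]
      change i (D.eW w • g₁.pr (d - a) v) = u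
      rw [map_smul, ← hd_pr hi, sub_add_cancel, hv]
      exact proj_of_mem hu
    · rintro _ ⟨v, rfl⟩
      rw [LinearMap.mem_ker]
      apply Subtype.ext
      rw [hφ, hψ]
      have h1 : i v.1 ∈ LinearMap.range i := ⟨v.1, rfl⟩
      rw [← he] at h1
      exact h1
  have h1 := LinearMap.finrank_range_add_finrank_ker φ
  rw [LinearMap.range_eq_top.2 hsurj, finrank_top, hker, LinearMap.finrank_range_of_inj hinj] at h1
  rw [← h1, add_comm]

omit [Fintype I] [DecidableEq I] in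
theorem coeff_Tm_mul (s : ℤ) (p : ℤ[T;T⁻¹]) (d : ℤ) : (Tm s * p).coeff d = p.coeff (d - s) := by
  have h := AddMonoidAlgebra.coeff_single_mul_eq_mul_coeff (r := (1 : ℤ)) (m := s) (x := p)
    (m₁ := d) (d - s) (fun m' _ => by constructor <;> intro h <;> omega)
  rw [one_mul] at h
  exact h

end PGEX

theorem I_GEX (D : Datum K I) (h : StGcf D) : StGex D := by
  intro V₁ V V₂ i q a b hV hn1 hn2 hi hq he hdi hdq
  have hfd : FiniteDimensional K V.M := hV.fd
  have hfd1 : FiniteDimensional K V₁.M := FiniteDimensional.of_injective (Conv.toK i) hi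
  have hfd2 : FiniteDimensional K V₂.M := Module.Finite.of_surjective (Conv.toK q) hq
  have hV1 : FdMod D V₁.n V₁.M := ⟨V₁.strand, hfd1, V₁.g.nilp⟩
  have hV2 : FdMod D V₂.n V₂.M := ⟨V₂.strand, hfd2, V₂.g.nilp⟩
  apply QSh.ext'
  intro w
  rw [QSh.add_apply, QSh.smul_apply, QSh.smul_apply]
  ext d
  have h1 : (Tm a * V₁.gch w).coeff d = (V₁.gch w).coeff (d - a) := PGEX.coeff_Tm_mul a _ d
  have h2 : (Tm (-b) * V₂.gch w).coeff d = (V₂.gch w).coeff (d - -b) :=
    PGEX.coeff_Tm_mul (-b) _ d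
  have h3 : (Tm a * V₁.gch w + Tm (-b) * V₂.gch w).coeff d =
      (Tm a * V₁.gch w).coeff d + (Tm (-b) * V₂.gch w).coeff d := rfl
  rw [h3, h1, h2, h V hV, h V₁ hV1, h V₂ hV2, sub_neg_eq_add]
  unfold GM.gdm
  rw [hn1, hn2]
  by_cases hl : w.length = V.n
  · rw [if_pos hl, if_pos hl, if_pos hl, PGEX.finrank_exact hdi hdq hi hq he w d]
    push_cast
    rfl
  · rw [if_neg hl, if_neg hl, if_neg hl]
    rfl

end Pool.Agent.KLS
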