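import Pool.Agent.Work.MP_e487d8_al.Y.Gk.Defs

/-! MP_e487d8_al, block GK, item GHB: a finite-dimensional graded module has a basis of
homogeneous vectors with words. -/

set_option autoImplicit false

namespace Pool.Agent.KLS

variable {K I : Type} [Field K] [Fintype I] [DecidableEq I]

namespace GHB

/-- the homogeneous vectors with a word -/
def hset (D : Datum K I) (V : GM D) : Set V.M :=
  {v | ∃ (w : List I) (d : ℤ), w.length = V.n ∧ D.eW w • v = v ∧ V.g.Hm d v}

theorem span_hset (D : Datum K I) (V : GM D) : Submodule.span K (hset D V) = ⊤ := by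
  rw [eq_top_iff]
  intro u _
  refine V.g.word_induction V.strand (p := fun u => u ∈ Submodule.span K (hset D V)) ?_ ?_ ?_ u
  · exact Submodule.zero_mem _
  · intro d ν u hν hw hd
    exact Submodule.subset_span ⟨ν, d, hν, wdAt_zero_iff.1 hw, hd⟩
  · intro u v hu hv
    exact Submodule.add_mem _ hu hv

end GHB

open GHB in
theorem I_GHB (D : Datum K I) : StGhb D := by
  intro V hV
  obtain ⟨b, hbs, hspan, hli⟩ := exists_linearIndependent K (hset D V)
  rw [span_hset] at hspan
  have : FiniteDimensional K V.M := hV.fd
  let B : Module.Basis b K V.M := Module.Basis.mk hli (by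
    rw [Subtype.range_coe, hspan])
  have : Finite b := Module.Finite.finite_basis B
  choose wd dg h1 h2 h3 using fun i : b => hbs i.2
  refine ⟨b, Fintype.ofFinite b, ⟨⟨B, wd, dg, h1, ?_, ?_⟩⟩⟩
  · intro i
    have : B i = i := by simp [B]
    rw [this]
    exact h2 i
  · intro i
    have : B i = i := by simp [B]
    rw [this]
    exact h3 i

end Pool.Agent.KLS
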