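import Pool.Agent.Work.MP_e487d8_al.Y.Gk.Defs

/-! MP_e487d8_al, block GK, item GHC: the graded character from a basis. -/

set_option autoImplicit false

open scoped LaurentPolynomial

open Pool.Agent.E487.Hopf Pool.Agent.KLSAbs

namespace Pool.Agent.KLS

variable {K I : Type} [Field K] [Fintype I] [DecidableEq I]

namespace GHCaux

variable {D : Datum K I}

/-- the projection onto the vectors with the word `w` and the degree `d` -/
noncomputable def prj {M : Type} [AddCommGroup M] [Module K M] [Module (KLRAlg D) M]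
    [IsScalarTower K (KLRAlg D) M] (g : Grd D M) (w : List I) (d : ℤ) : M →ₗ[K] M where
  toFun u := g.pr d (D.eW w • u)
  map_add' u v := by rw [smul_add, map_add]
  map_smul' r u := by rw [smul_comm, map_smul, RingHom.id_apply]

theorem prj_b {V : GM D} {ι : Type} (B : V.HB ι) {w : List I} (hw : w.length = V.n) (d : ℤ)
    (i : ι) [Decidable (B.wd i = w ∧ B.dg i = d)] :
    prj V.g w d (B.b i) = if B.wd i = w ∧ B.dg i = d then B.b i else 0 := by
  change V.g.pr d (D.eW w • B.b i) = _
  by_cases h : B.wd i = w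
  · have h1 : D.eW w • B.b i = B.b i := by rw [← h]; exact B.hw i
    rw [h1, (B.hd i).pr_eq]
    by_cases h2 : B.dg i = d
    · rw [if_pos h2, if_pos ⟨h, h2⟩]
    · rw [if_neg h2, if_neg (fun h3 => h2 h3.2)]
  · have h1 : D.eW w • B.b i = 0 := by
      rw [← B.hw i, ← mul_smul, D.eW_ne w (B.wd i) (by rw [hw, B.len]) (fun h3 => h h3.symm),
        zero_smul]
    rw [h1, map_zero, if_neg (fun h3 => h h3.1)]

theorem wsp_eq {V : GM D} {ι : Type} [Fintype ι] (B : V.HB ι) {w : List I}
    (hw : w.length = V.n) (d : ℤ) :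
    wsp V.g w d = Submodule.span K
      (Set.range (fun i : {i : ι // B.wd i = w ∧ B.dg i = d} => B.b i.1)) := by
  classical
  apply le_antisymm
  · intro u hu
    have h1 : prj V.g w d u = u := by
      change V.g.pr d (D.eW w • u) = u
      rw [hu.1]
      exact Grd.hm_iff.1 hu.2
    rw [← h1, ← B.b.sum_repr u, map_sum]
    refine Submodule.sum_mem _ fun i _ => ?_
    rw [map_smul, prj_b B hw]
    refine Submodule.smul_mem _ _ ?_
    by_cases h : B.wd i = w ∧ B.dg i = d
    · rw [if_pos h]
      exact Submodule.subset_span ⟨⟨i, h⟩, rfl⟩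
    · rw [if_neg h]
      exact Submodule.zero_mem _
  · rw [Submodule.span_le]
    rintro _ ⟨⟨i, h1, h2⟩, rfl⟩
    refine ⟨?_, ?_⟩
    · change D.eW w • B.b i = B.b i
      rw [← h1]
      exact B.hw i
    · change V.g.Hm d (B.b i)
      rw [← h2]
      exact B.hd i

theorem gdm_eq {V : GM D} {ι : Type} [Fintype ι] [DecidableEq ι] (B : V.HB ι) (w : List I)
    (d : ℤ) : V.gdm w d = (Finset.univ.filter fun i => B.wd i = w ∧ B.dg i = d).card := by
  classical
  unfold GM.gdm
  by_cases hw : w.length = V.n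
  · rw [if_pos hw, wsp_eq B hw d]
    have h1 : LinearIndependent K
        (fun i : {i : ι // B.wd i = w ∧ B.dg i = d} => B.b i.1) :=
      B.b.linearIndependent.comp _ Subtype.val_injective
    rw [finrank_span_eq_card h1, Fintype.card_subtype]
  · rw [if_neg hw, eq_comm, Finset.card_eq_zero, Finset.filter_eq_empty_iff]
    rintro i _ ⟨h, -⟩
    exact hw (by rw [← h]; exact B.len i)

end GHCaux

open GHCaux in
theorem I_GHC (D : Datum K I) : StGhc D := by
  classical
  intro V ι _ B w
  change (∑ᶠ d : ℤ, (V.gdm w d : ℤ) • Tm d) = _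
  have h0 : ∀ d : ℤ, (V.gdm w d : ℤ) • Tm d =
      ∑ i, if B.wd i = w ∧ B.dg i = d then Tm d else 0 := by
    intro d
    rw [gdm_eq B, ← Finset.sum_filter, Finset.sum_const, natCast_zsmul]
  have hS : (Function.support fun d : ℤ => (V.gdm w d : ℤ) • Tm d) ⊆
      ((Finset.univ.image B.dg : Finset ℤ) : Set ℤ) := by
    intro d hd
    rw [Function.mem_support, h0] at hd
    obtain ⟨i, -, hi⟩ := Finset.exists_ne_zero_of_sum_ne_zero hd
    rw [Finset.coe_image]
    refine ⟨i, by simp, ?_⟩
    by_contra hc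
    exact hi (if_neg fun h => hc h.2)
  rw [finsum_eq_sum_of_support_subset _ hS]
  simp only [h0]
  rw [Finset.sum_comm]
  refine Finset.sum_congr rfl fun i _ => ?_
  by_cases h : B.wd i = w
  · rw [if_pos h, Finset.sum_eq_single (B.dg i)]
    · rw [if_pos ⟨h, rfl⟩]
    · intro d _ hd
      exact if_neg fun h2 => hd h2.2.symm
    · intro hn
      exact absurd (Finset.mem_image_of_mem _ (Finset.mem_univ i)) hn
  · rw [if_neg h]
    exact Finset.sum_eq_zero fun d _ => if_neg fun h2 => h h2.1

end Pool.Agent.KLS
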