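import Pool.Agent.Work.MP_e487d8_al.Y.Gk.Defs

/-! MP_e487d8_al, block GK: GHD and its mirror GHDP -/

set_option autoImplicit false

namespace Pool.Agent.KLS

variable {K I : Type} [Field K] [Fintype I] [DecidableEq I]

namespace GhdAux

variable {D : Datum K I}

/-- a homogeneous surjection with the same kernel -/
theorem exists_hom {M N : Type} [AddCommGroup M] [Module K M] [Module (KLRAlg D) M]
    [IsScalarTower K (KLRAlg D) M] [AddCommGroup N] [Module K N] [Module (KLRAlg D) N]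
    [IsScalarTower K (KLRAlg D) N] (gM : Grd D M) (gN : Grd D N) [IsSimpleModule (KLRAlg D) N]
    (f : M →ₗ[KLRAlg D] N) (hf : Function.Surjective f)
    (hm : ∀ W : Submodule (KLRAlg D) M, W ≠ ⊤ → W ≤ LinearMap.ker f) :
    ∃ (s : ℤ) (h : M →ₗ[KLRAlg D] N), Function.Surjective h ∧ HomDeg gM gN (-s) h ∧
      ∀ W : Submodule (KLRAlg D) M, W ≠ ⊤ → W ≤ LinearMap.ker h := by
  have hN := IsSimpleModule.nontrivial (KLRAlg D) N
  have hf0 : f ≠ 0 := by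
    intro e
    obtain ⟨v, hv⟩ := exists_ne (0 : N)
    obtain ⟨u, hu⟩ := hf v
    exact hv (by rw [← hu, e]; rfl)
  obtain ⟨s, h, h0, h1⟩ := exists_homDeg gM gN hf0
  have hs : Function.Surjective h := LinearMap.surjective_of_ne_zero h0
  have hk : LinearMap.ker h ≠ ⊤ := fun e => h0 (LinearMap.ker_eq_top.mp e)
  have hkf : LinearMap.ker f ≠ ⊤ := fun e => hf0 (LinearMap.ker_eq_top.mp e)
  have hc : IsCoatom (LinearMap.ker h) := LinearMap.isCoatom_ker_of_surjective hs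
  have he : LinearMap.ker f = LinearMap.ker h := by
    rcases hc.le_iff.mp (hm _ hk) with h3 | h3
    · exact absurd h3 hkf
    · exact h3
  refine ⟨-s, h, hs, by rwa [neg_neg], fun W hW => ?_⟩
  rw [← he]
  exact hm W hW

/-- the quotient occurs -/
theorem occ_quo {Z V : GV D} {s : ℤ} {h : V.M →ₗ[KLRAlg D] Z.M} (hs : Function.Surjective h)
    (hd : HomDeg V.g Z.g (-s) h) : Z.Occ V s :=
  ⟨V, LinearMap.id, h, 0, -s, Function.injective_id, hs, HomDeg.id, hd, by ring⟩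

end GhdAux

/-- GHD -/
theorem I_GHD (D : Datum K I) (hb : S_basis D) (γ : ∀ X : Sm D, Grd D X.rep.M) : StGhd γ := by
  intro B
  obtain ⟨P, hP, -, h⟩ := Mo.hd hb B.rep (γ B)
  refine ⟨P, hP, fun X Z hXZ => ?_⟩
  obtain ⟨f, hf, hm⟩ := hXZ
  have hZ : IsSimpleModule (KLRAlg D) Z.rep.M := Z.rep.smp.simple
  obtain ⟨s, p, hs, hd, hk⟩ :=
    GhdAux.exists_hom (Grd.conv X.rep.n (γ X) (γ B)) (γ Z) f hf hm
  obtain ⟨D', h1, h2⟩ := (h X.rep Z.rep (γ X) (γ Z) s).1 p hs hd hk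
  exact ⟨s, D', GhdAux.occ_quo (Z := (gS γ Z).toGV) (V := ((gS γ X).conv (gS γ B)).toGV) hs hd,
    h1, fun W n hW => h2 W.rep (γ W) n hW⟩

/-- GHDP: the mirror of GHD -/
theorem I_GHDP (D : Datum K I) (hb : S_basis D) (γ : ∀ X : Sm D, Grd D X.rep.M) : StGhdp γ := by
  intro B
  obtain ⟨P, hP, -, h⟩ := Mo.hd hb B.rep (γ B)
  refine ⟨P, hP, fun X Z hXZ => ?_⟩
  obtain ⟨f, hf, hm⟩ := hXZ
  have hZ : IsSimpleModule (KLRAlg D) Z.rep.M := Z.rep.smp.simple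
  obtain ⟨s, p, hs, hd, hk⟩ :=
    GhdAux.exists_hom (Grd.conv B.rep.n (γ B) (γ X)) (γ Z) f hf hm
  obtain ⟨D', h1, h2⟩ := (h X.rep Z.rep (γ X) (γ Z) s).2 p hs hd hk
  exact ⟨s, D', GhdAux.occ_quo (Z := (gS γ Z).toGV) (V := ((gS γ B).conv (gS γ X)).toGV) hs hd,
    h1, fun W n hW => h2 W.rep (γ W) n hW⟩

end Pool.Agent.KLS
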