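import Pool.Agent.Work.MP_e487d8_al.Y.Gk.Defs
import Pool.Agent.Work.MP_e487d8_al.Bd.B24

/-! MP_e487d8_al, block GK, item GJH: the composition series of a graded module. -/

set_option autoImplicit false

open scoped LaurentPolynomial

open Pool.Agent.E487.Hopf Pool.Agent.KLSAbs

namespace Pool.Agent.KLS

variable {K I : Type} [Field K] [Fintype I] [DecidableEq I]

namespace XGJH

variable {D : Datum K I}

theorem gch_triv (V : GM D) (h : Subsingleton V.M) : V.gch = 0 := by
  apply QSh.ext'
  intro w
  show ∑ᶠ d : ℤ, (V.gdm w d : ℤ) • Tm d = 0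
  have h1 : ∀ d : ℤ, (V.gdm w d : ℤ) • Tm d = 0 := by
    intro d
    have h2 : V.gdm w d = 0 := by
      unfold GM.gdm
      split_ifs
      · exact Module.finrank_zero_of_subsingleton
      · rfl
    rw [h2]
    simp
  simp only [h1]
  exact finsum_zero

theorem finrank_lt {M : Type} [AddCommGroup M] [Module K M] [Module (KLRAlg D) M]
    [IsScalarTower K (KLRAlg D) M] [FiniteDimensional K M] (P : Submodule (KLRAlg D) M) {u : M}
    (hu : u ∈ P) (hu0 : u ≠ 0) : Module.finrank K (M ⧸ P) < Module.finrank K M := by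
  have h1 := LinearMap.finrank_range_add_finrank_ker (Conv.toK P.mkQ)
  have h2 : LinearMap.range (Conv.toK P.mkQ) = ⊤ := LinearMap.range_eq_top.2 P.mkQ_surjective
  rw [h2, finrank_top] at h1
  have h3 : 0 < Module.finrank K (LinearMap.ker (Conv.toK P.mkQ)) := by
    have hm : u ∈ LinearMap.ker (Conv.toK P.mkQ) := by
      rw [LinearMap.mem_ker]
      exact (Submodule.Quotient.mk_eq_zero P).2 hu
    have : Nontrivial (LinearMap.ker (Conv.toK P.mkQ)) :=
      ⟨⟨⟨u, hm⟩, 0, fun h => hu0 (congrArg Subtype.val h)⟩⟩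
    exact Module.finrank_pos
  omega

end XGJH

theorem I_GJH (D : Datum K I) (γ : ∀ X : Sm D, Grd D X.rep.M) (hex : StGex D) (hsb : StGsb γ)
    (hoc : StGoc γ) : StGjh γ := by
  classical
  suffices H : ∀ (N : ℕ) (V : GM D), FdMod D V.n V.M → Module.finrank K V.M ≤ N →
      ∃ p : Sm D →₀ ℤ[T;T⁻¹],
        V.gch = Finsupp.linearCombination ℤ[T;T⁻¹] (gX γ) p ∧ (∀ Z d, 0 ≤ (p Z).coeff d) ∧
          ∀ Z d, (p Z).coeff d ≠ 0 ↔ (gS γ Z).Occ V.toGV d from
    fun V hV => H _ V hV le_rfl
  intro N
  induction N with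
  | zero =>
    intro V hV hN
    have hfd := hV.fd
    have hs : Subsingleton V.M := Module.finrank_zero_iff.1 (Nat.le_zero.1 hN)
    refine ⟨0, ?_, fun Z d => ?_, fun Z d => ?_⟩
    · rw [XGJH.gch_triv V hs, map_zero]
    · exact le_rfl
    · constructor
      · intro h
        exact absurd rfl h
      · rintro ⟨W, i, p, a, b, hi, hp, -⟩
        exfalso
        have h1 : Subsingleton W.M := hi.subsingleton
        have h2 : Subsingleton (gS γ Z).M := hp.subsingleton
        have h3 : IsSimpleModule (KLRAlg D) Z.rep.M := Z.rep.smp.simple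
        have h4 : Nontrivial Z.rep.M := IsSimpleModule.nontrivial (KLRAlg D) Z.rep.M
        exact not_subsingleton Z.rep.M h2
  | succ N ih =>
    intro V hV hN
    have hfd := hV.fd
    by_cases hnt : Nontrivial V.M
    · obtain ⟨X, f, s, hf, hn, hfs⟩ := hsb V hV hnt
      set P : Submodule (KLRAlg D) V.M := LinearMap.range f with hP
      have hgr : ∀ (u : V.M) (d : ℤ), P.mkQ u = 0 → P.mkQ (V.g.pr d u) = 0 := by
        intro u d hu
        have hu' : u ∈ P := (Submodule.Quotient.mk_eq_zero P).1 hu
        obtain ⟨v, rfl⟩ := hu'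
        refine (Submodule.Quotient.mk_eq_zero P).2 ⟨(γ X).pr (d - s) v, ?_⟩
        rw [← hfs.pr, sub_add_cancel]
      let V₂ : GM D := ⟨⟨V.M ⧸ P, V.g.ofSurj P.mkQ P.mkQ_surjective hgr⟩, V.n, V.strand.quot P⟩
      have hq : HomDeg V.g V₂.g 0 P.mkQ := V.g.ofSurj_hom P.mkQ P.mkQ_surjective hgr
      have hV₂ : FdMod D V₂.n V₂.M := hV.quot P
      have hXn : Nontrivial X.rep.M := by
        have h3 : IsSimpleModule (KLRAlg D) X.rep.M := X.rep.smp.simple
        exact IsSimpleModule.nontrivial (KLRAlg D) X.rep.M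
      obtain ⟨x, hx⟩ := exists_ne (0 : X.rep.M)
      have hlt : Module.finrank K V₂.M < Module.finrank K V.M :=
        XGJH.finrank_lt P (u := f x) ⟨x, rfl⟩ (fun h => hx (hf (by rw [h, map_zero])))
      obtain ⟨p₂, h1, h2, h3⟩ := ih V₂ hV₂ (by omega)
      have hker : LinearMap.ker P.mkQ = LinearMap.range f := P.ker_mkQ
      have hco : ∀ (Z : Sm D) (d : ℤ), ((Finsupp.single X (Tm s) + p₂ : Sm D →₀ ℤ[T;T⁻¹]) Z).coeff d =
          (if Z = X ∧ d - s = 0 then 1 else 0) + (p₂ Z).coeff d := by
        intro Z d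
        rw [Finsupp.add_apply, AddMonoidAlgebra.coeff_add, Finsupp.add_apply]
        congr 1
        rw [Finsupp.single_apply]
        by_cases hZ : X = Z
        · rw [if_pos hZ]
          have h5 : (Tm s).coeff d = if s = d then 1 else 0 := LaurentPolynomial.T_apply d s
          rw [h5]
          by_cases hd : s = d
          · rw [if_pos hd, if_pos ⟨hZ.symm, by omega⟩]
          · rw [if_neg hd, if_neg (fun h => hd (by omega))]
        · rw [if_neg hZ, if_neg (fun h => hZ h.1.symm)]
          rfl
      refine ⟨Finsupp.single X (Tm s) + p₂, ?_, fun Z d => ?_, fun Z d => ?_⟩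
      · have h5 := hex (gS γ X) V V₂ f P.mkQ s 0 hV hn rfl hf P.mkQ_surjective hker hfs hq
        rw [h5, map_add, Finsupp.linearCombination_single, ← h1, neg_zero, Tm_zero, one_smul]
        rfl
      · rw [hco]
        have := h2 Z d
        split_ifs <;> omega
      · rw [hco]
        have h6 := h2 Z d
        have h7 : ((if Z = X ∧ d - s = 0 then (1 : ℤ) else 0) + (p₂ Z).coeff d ≠ 0) ↔
            (Z = X ∧ d - s = 0) ∨ (p₂ Z).coeff d ≠ 0 := by
          by_cases hc : Z = X ∧ d - s = 0
          · rw [if_pos hc]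
            constructor
            · intro _
              exact Or.inl hc
            · intro _
              omega
          · rw [if_neg hc, zero_add]
            constructor
            · intro h
              exact Or.inr h
            · rintro (h | h)
              · exact absurd h hc
              · exact h
        rw [h7, h3 Z d, ← hoc Z X (d - s)]
        constructor
        · rintro (h | h)
          · have h8 := (Mo.I_OCCS D (gS γ Z).toGV (gS γ X).toGV V.toGV (d - s) s).2 f hf hfs h
            rwa [sub_add_cancel] at h8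
          · have h8 := (Mo.I_OCCS D (gS γ Z).toGV V.toGV V₂.toGV d 0).1 P.mkQ
              P.mkQ_surjective hq h
            rwa [sub_zero] at h8
        · intro h
          have h8 := Mo.I_OCCX D (gS γ Z).toGV (gS γ X).toGV V.toGV V₂.toGV f P.mkQ s 0 d
            Z.rep.smp.simple hf P.mkQ_surjective hker hfs hq h
          rwa [add_zero] at h8
    · have hs : Subsingleton V.M := not_nontrivial_iff_subsingleton.1 hnt
      exact ih V hV (by rw [Module.finrank_zero_of_subsingleton]; omega)

end Pool.Agent.KLS
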