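import Pool.Agent.Work.MP_e487d8_al.Y.Gk.Defs

/-! MP_e487d8_al, block GK, item GOC: subquotients of simple modules. -/

set_option autoImplicit false
set_option linter.unusedSectionVars false
set_option linter.unusedVariables false

open scoped LaurentPolynomial

open Pool.Agent.E487.Hopf Pool.Agent.KLSAbs

namespace Pool.Agent.KLS

variable {K I : Type} [Field K] [Fintype I] [DecidableEq I]

namespace Goc

theorem bij {R W M N : Type} [Ring R] [AddCommGroup W] [Module R W] [AddCommGroup M] [Module R M]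
    [AddCommGroup N] [Module R N] (hM : IsSimpleModule R M) (hN : IsSimpleModule R N)
    (i : W →ₗ[R] M) (p : W →ₗ[R] N) (hi : Function.Injective i) (hp : Function.Surjective p) :
    Function.Bijective i ∧ Function.Bijective p := by
  have hntN : Nontrivial N := IsSimpleModule.nontrivial R N
  obtain ⟨z, hz⟩ := exists_ne (0 : N)
  obtain ⟨w, hw⟩ := hp z
  have hp0 : p ≠ 0 := by
    intro h
    exact hz (by rw [← hw, h, LinearMap.zero_apply])
  have hi0 : i ≠ 0 := by
    intro h
    have hw0 : w = 0 := hi (by rw [h, LinearMap.zero_apply, LinearMap.zero_apply])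
    exact hz (by rw [← hw, hw0, map_zero])
  have hsi : Function.Surjective i := LinearMap.surjective_of_ne_zero hi0
  let e : W ≃ₗ[R] M := LinearEquiv.ofBijective i ⟨hi, hsi⟩
  have hsW : IsSimpleModule R W := IsSimpleModule.congr e
  exact ⟨⟨hi, hsi⟩, LinearMap.bijective_of_ne_zero hp0⟩

theorem deg {D : Datum K I} {W M : Type} [AddCommGroup W] [Module K W] [Module (KLRAlg D) W]
    [IsScalarTower K (KLRAlg D) W] [AddCommGroup M] [Module K M] [Module (KLRAlg D) M]
    [IsScalarTower K (KLRAlg D) M] [FiniteDimensional K M] [Nontrivial M] (gW : Grd D W)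
    (g : Grd D M) {a b : ℤ} (i p : W →ₗ[KLRAlg D] M) (hi : Function.Bijective i)
    (hp : Function.Bijective p) (hia : HomDeg gW g a i) (hpb : HomDeg gW g b p) : b - a = 0 := by
  let e : W ≃ₗ[KLRAlg D] M := LinearEquiv.ofBijective i hi
  have hqi : (p.comp e.symm.toLinearMap).comp i = p := by
    ext w
    change p (e.symm (e w)) = p w
    rw [e.symm_apply_apply]
  have hq : HomDeg g g (b - a) (p.comp e.symm.toLinearMap) := by
    refine HomDeg.of_comp_right hia hi.2 ?_
    rw [hqi, add_sub_cancel]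
    exact hpb
  exact hq.deg_eq_zero (hp.1.comp e.symm.injective)

end Goc

/-- **GOC** -/
theorem I_GOC (D : Datum K I) {Lp : I → ℕ → SMod D} (hC : CFacts D Lp)
    (γ : ∀ X : Sm D, Grd D X.rep.M) : StGoc γ := by
  intro Z X d
  constructor
  · rintro ⟨W, i, p, a, b, hi, hp, hia, hpb, hd⟩
    have hsX : IsSimpleModule (KLRAlg D) X.rep.M := X.rep.smp.simple
    have hsZ : IsSimpleModule (KLRAlg D) Z.rep.M := Z.rep.smp.simple
    obtain ⟨h1, h2⟩ := Goc.bij (M := X.rep.M) (N := Z.rep.M) hsX hsZ i p hi hp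
    let q : X.rep.M ≃ₗ[KLRAlg D] Z.rep.M :=
      (LinearEquiv.ofBijective (M₂ := X.rep.M) i h1).symm.trans
        (LinearEquiv.ofBijective (M₂ := Z.rep.M) p h2)
    have hXZ : X = Z := Sm.eq_of_iso ⟨q⟩
    subst hXZ
    have hfd : FiniteDimensional K X.rep.M := X.rep.smp.fd
    have hnt : Nontrivial X.rep.M := IsSimpleModule.nontrivial (KLRAlg D) X.rep.M
    have h0 := Goc.deg (M := X.rep.M) W.g (γ X) i p h1 h2 hia hpb
    exact ⟨rfl, by omega⟩
  · rintro ⟨rfl, rfl⟩
    exact ⟨(gS γ Z).toGV, LinearMap.id, LinearMap.id, 0, 0, Function.injective_id,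
      Function.surjective_id, HomDeg.id, HomDeg.id, rfl⟩

end Pool.Agent.KLS
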