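import Pool.Agent.Work.MP_e487d8_al.Y.Gk.Defs

/-! MP_e487d8_al, block GK, item GSB: a graded module has a graded simple submodule. -/

set_option autoImplicit false
set_option linter.unusedSectionVars false

open scoped LaurentPolynomial

open Pool.Agent.E487.Hopf Pool.Agent.KLSAbs

namespace Pool.Agent.KLS

variable {K I : Type} [Field K] [Fintype I] [DecidableEq I]

/-- **GSB** -/
theorem I_GSB (D : Datum K I) {Lp : I → ℕ → SMod D} (hC : CFacts D Lp)
    (γ : ∀ X : Sm D, Grd D X.rep.M) : StGsb γ := by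
  intro V hV hnt
  have := hV.fd
  obtain ⟨S, hS⟩ := exists_simple_sub (D := D) (K := K) (M := V.M)
  let Z : SMod D := ⟨V.n, S, ⟨hV.sub S, hS⟩⟩
  have hiso : (Sm.cls Z).rep.Iso Z := Sm.iso_rep hC (Sm.ch_rep_cls Z)
  have hn : (Sm.cls Z).rep.n = Z.n := SMod.n_eq_of_iso hiso
  obtain ⟨e⟩ := hiso
  have hinj : Function.Injective (S.subtype.comp e.toLinearMap) := by
    rw [LinearMap.coe_comp]
    exact S.subtype_injective.comp e.injective
  have hs := (Sm.cls Z).rep.smp.simple
  have hne : S.subtype.comp e.toLinearMap ≠ 0 := by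
    intro h
    have hnt' := IsSimpleModule.nontrivial (KLRAlg D) (Sm.cls Z).rep.M
    obtain ⟨v, hv⟩ := exists_ne (0 : (Sm.cls Z).rep.M)
    exact hv (hinj (by rw [h, LinearMap.zero_apply, LinearMap.zero_apply]))
  obtain ⟨s, f, h0, h1⟩ := exists_homDeg (γ (Sm.cls Z)) V.g hne
  exact ⟨Sm.cls Z, f, s, LinearMap.injective_of_ne_zero h0, hn, h1⟩

end Pool.Agent.KLS
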