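import Pool.Agent.Work.MP_e487d8_al.Y.Gk.Defs

/-! MP_e487d8_al, item GSM: the quantum shuffle product as a sum over shuffles. -/

set_option autoImplicit false

open scoped LaurentPolynomial

namespace Pool.Agent.KLS

variable {K I : Type} [Field K] [Fintype I] [DecidableEq I]

namespace XGSM

theorem Kt_eq {B : I → I → ℤ} (i : I) (f : QSh I B) (hf : ∀ ν : List I, ν.length ≠ 0 → f ν = 0) :
    QSh.Kt i f = f := by
  apply QSh.ext'
  intro w
  rw [QSh.Kt_apply]
  cases w with
  | nil => rw [bw, neg_zero, Tm_zero, one_mul]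
  | cons j w => rw [hf (j :: w) (by simp), mul_zero]

theorem Kt_supp {B : I → I → ℤ} (i : I) (f : QSh I B) (m : ℕ)
    (hf : ∀ ν : List I, ν.length ≠ m → f ν = 0) :
    ∀ ν : List I, ν.length ≠ m → QSh.Kt i f ν = 0 := by
  intro ν hν
  rw [QSh.Kt_apply, hf ν hν, mul_zero]

theorem L_zero {B : I → I → ℤ} (i : I) (f : QSh I B)
    (hf : ∀ ν : List I, ν.length ≠ 0 → f ν = 0) : QSh.L i f = 0 := by
  apply QSh.ext'
  intro w
  exact hf (i :: w) (by simp)

theorem sm_left {B : I → I → ℤ} (κ : List I) (f g : QSh I B)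
    (hf : ∀ ν : List I, ν.length ≠ 0 → f ν = 0) : QSh.sm κ f g = f [] * g κ := by
  induction κ generalizing f g with
  | nil => rfl
  | cons i κ ih =>
    rw [QSh.sm, L_zero i f hf, QSh.sm_zero_left, zero_add, Kt_eq i f hf, ih f _ hf]
    rfl

theorem sm_right {B : I → I → ℤ} (κ : List I) (f g : QSh I B)
    (hg : ∀ ν : List I, ν.length ≠ 0 → g ν = 0) : QSh.sm κ f g = f κ * g [] := by
  induction κ generalizing f g with
  | nil => rfl
  | cons i κ ih =>
    rw [QSh.sm, L_zero i g hg, QSh.sm_zero_right, add_zero, ih _ g hg]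
    rfl

theorem shd_false (D : Datum K I) (n : ℕ) (κ : List I) : shd D (List.replicate n false) κ = 0 := by
  induction n generalizing κ with
  | zero => cases κ <;> rfl
  | succ n ih =>
    cases κ with
    | nil => rfl
    | cons i κ => rw [List.replicate_succ, shd, ih]

theorem shd_true (D : Datum K I) (n : ℕ) (κ : List I) : shd D (List.replicate n true) κ = 0 := by
  induction n generalizing κ with
  | zero => cases κ <;> rfl
  | succ n ih =>
    cases κ with
    | nil => rfl
    | cons i κ => rw [List.replicate_succ, shd, ih, sel_replicate_ne (by decide), bw, sub_zero]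

theorem sm_eq_sum (D : Datum K I) (κ : List I) (m n : ℕ) (f g : QSh I D.fm)
    (hf : ∀ ν : List I, ν.length ≠ m → f ν = 0) (hg : ∀ ν : List I, ν.length ≠ n → g ν = 0)
    (h : κ.length = m + n) :
    QSh.sm κ f g =
      ∑ w : Shf m n, Tm (shd D w.1 κ) * (f (sel false w.1 κ) * g (sel true w.1 κ)) := by
  induction κ generalizing m n f g with
  | nil =>
    obtain ⟨rfl, rfl⟩ : m = 0 ∧ n = 0 := by
      rw [List.length_nil] at h
      omega
    rw [Shf.sum_zero_left 0
      (fun w => Tm (shd D w []) * (f (sel false w []) * g (sel true w []))), shd_true, Tm_zero,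
      one_mul]
    rfl
  | cons i κ ih =>
    rcases m with _ | m
    · rw [Nat.zero_add] at h
      rw [Shf.sum_zero_left n (fun w => Tm (shd D w (i :: κ)) *
        (f (sel false w (i :: κ)) * g (sel true w (i :: κ)))),
        sm_left _ f g hf, ← h, sel_replicate_self, sel_replicate_ne (by decide), shd_true, Tm_zero,
        one_mul]
    rcases n with _ | n
    · rw [Nat.add_zero] at h
      rw [Shf.sum_zero_right (m + 1) (fun w => Tm (shd D w (i :: κ)) *
        (f (sel false w (i :: κ)) * g (sel true w (i :: κ)))),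
        sm_right _ f g hg, ← h, sel_replicate_self, sel_replicate_ne (by decide), shd_false,
        Tm_zero, one_mul]
    rw [List.length_cons] at h
    rw [Shf.sum_cons m n (fun w => Tm (shd D w (i :: κ)) *
      (f (sel false w (i :: κ)) * g (sel true w (i :: κ)))), QSh.sm]
    rw [ih m (n + 1) (QSh.L i f) g (fun ν hν => hf _ (by rw [List.length_cons]; omega)) hg
      (by omega), ih (m + 1) n (QSh.Kt i f) (QSh.L i g) (Kt_supp i f _ hf)
      (fun ν hν => hg _ (by rw [List.length_cons]; omega)) (by omega)]
    congr 1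
    refine Finset.sum_congr rfl fun w _ => ?_
    have e1 : sel false (true :: w.1) (i :: κ) = sel false w.1 κ := by
      rw [sel, if_neg (by decide)]
    have e2 : sel true (true :: w.1) (i :: κ) = i :: sel true w.1 κ := by
      rw [sel, if_pos rfl]
    rw [e1, e2, shd, sub_eq_add_neg, Tm_add, QSh.Kt_apply, QSh.L_apply]
    ring

theorem sm_eq_zero (D : Datum K I) (κ : List I) (m n : ℕ) (f g : QSh I D.fm)
    (hf : ∀ ν : List I, ν.length ≠ m → f ν = 0) (hg : ∀ ν : List I, ν.length ≠ n → g ν = 0)
    (h : κ.length ≠ m + n) : QSh.sm κ f g = 0 := by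
  induction κ generalizing m n f g with
  | nil =>
    rw [QSh.sm]
    by_cases hm : m = 0
    · rw [hg [] (by rw [List.length_nil] at h ⊢; omega), mul_zero]
    · rw [hf [] (by rw [List.length_nil]; omega), zero_mul]
  | cons i κ ih =>
    rw [QSh.sm]
    rw [List.length_cons] at h
    have h1 : QSh.sm κ (QSh.L i f) g = 0 := by
      rcases m with _ | m
      · rw [L_zero i f hf, QSh.sm_zero_left]
      · exact ih m n _ g (fun ν hν => hf _ (by rw [List.length_cons]; omega)) hg (by omega)
    have h2 : QSh.sm κ (QSh.Kt i f) (QSh.L i g) = 0 := by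
      rcases n with _ | n
      · rw [L_zero i g hg, QSh.sm_zero_right]
      · exact ih m n _ _ (Kt_supp i f _ hf)
          (fun ν hν => hg _ (by rw [List.length_cons]; omega)) (by omega)
    rw [h1, h2, add_zero]

end XGSM

/-- GSM: the quantum shuffle product as a sum over shuffles -/
theorem I_GSM (D : Datum K I) : StGsm D := fun κ m n f g hf hg =>
  ⟨XGSM.sm_eq_sum D κ m n f g hf hg, XGSM.sm_eq_zero D κ m n f g hf hg⟩

end Pool.Agent.KLS
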