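import Pool.Agent.Work.MP_e487d8_al.Y.Gk.Defs

/-! MP_e487d8_al, block GK, item GTL: the top part at the left end. -/

set_option autoImplicit false

open scoped LaurentPolynomial

open Pool.Agent.E487.Hopf Pool.Agent.KLSAbs

namespace Pool.Agent.KLS

namespace XGTL

section qsh

variable {I : Type} {B : I → I → ℤ}

theorem L_pow_apply (i : I) (n : ℕ) (f : QSh I B) (w : List I) :
    (QSh.L i ^ n) f w = f (List.replicate n i ++ w) := by
  induction n generalizing f with
  | zero => rfl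
  | succ n ih =>
    rw [pow_succ, Module.End.mul_apply, ih, QSh.L_apply, List.replicate_succ, List.cons_append]

theorem L_pow_mul (i : I) (n : ℕ) (f g : QSh I B) (h : QSh.L i g = 0) :
    (QSh.L i ^ n) (f * g) = ((QSh.L i ^ n) f) * g := by
  induction n generalizing f with
  | zero => rfl
  | succ n ih =>
    rw [pow_succ, Module.End.mul_apply, Module.End.mul_apply, QSh.L_mul, h, mul_zero, add_zero, ih]

theorem Tm_ne (n : ℤ) : Tm n ≠ 0 := by
  intro h
  have h1 := congrArg (fun x => x * Tm (-n)) h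
  simp only [← Tm_add, add_neg_cancel, zero_mul, Tm_zero] at h1
  exact one_ne_zero h1

end qsh

variable {K I : Type} [Field K] [Fintype I] [DecidableEq I] {D : Datum K I}

/-- the ungraded count -/
theorem count {Lp : I → ℕ → SMod D} (hb : S_basis D) (hC : CFacts D Lp) (i : I) (a : ℕ)
    (Y : SMod D) (hY : ∀ ν, Y.ch (i :: ν) = 0) (w : List I) :
    chr D ((Lp i a).n + Y.n) ((Lp i a).conv Y) (List.replicate a i ++ w) =
      a.factorial * Y.ch w := by
  have h1 := (Conv.fdMod_chrQ hb (Lp i a).smp.toFdMod Y.smp.toFdMod).2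
  have h2 : Sh.L i (chrQ D Y.n Y.M) = 0 := by
    apply Sh.ext'
    intro ν
    show ((chr D Y.n Y.M (i :: ν) : ℕ) : ℚ) = 0
    have := hY ν
    rw [SMod.ch] at this
    rw [this, Nat.cast_zero]
  have h3 : Sh.Lp i a (chrQ D (Lp i a).n (Lp i a).M) = (a.factorial : ℚ) • (1 : Sh I ℚ) := by
    apply Sh.ext'
    intro ν
    show ((chr D (Lp i a).n (Lp i a).M (List.replicate a i ++ ν) : ℕ) : ℚ) =
      (a.factorial : ℚ) * (1 : Sh I ℚ) ν
    have h4 := hC.ch_Lp i a (List.replicate a i ++ ν)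
    rw [SMod.ch] at h4
    rw [h4]
    cases ν with
    | nil =>
      rw [List.append_nil, if_pos rfl]
      show _ = (a.factorial : ℚ) * 1
      rw [mul_one]
    | cons j ν =>
      rw [if_neg]
      · show _ = (a.factorial : ℚ) * 0
        rw [mul_zero, Nat.cast_zero]
      · intro h
        have := congrArg List.length h
        simp at this
  have h4 : Sh.Lp i a (chrQ D ((Lp i a).n + Y.n) ((Lp i a).conv Y)) =
      (a.factorial : ℚ) • chrQ D Y.n Y.M := by
    have h5 : chrQ D ((Lp i a).n + Y.n) ((Lp i a).conv Y) =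
      chrQ D Y.n Y.M * chrQ D (Lp i a).n (Lp i a).M := h1.trans (mul_comm _ _)
    rw [h5, Sh.Lp_of_L_zero h2, h3, mul_smul_comm, mul_one]
  have h5 := congrFun h4 w
  have h6 : ((chr D ((Lp i a).n + Y.n) ((Lp i a).conv Y) (List.replicate a i ++ w) : ℕ) : ℚ) =
      (a.factorial : ℚ) * ((chr D Y.n Y.M w : ℕ) : ℚ) := h5
  exact_mod_cast h6

end XGTL

open XGTL

variable {K I : Type} [Field K] [Fintype I] [DecidableEq I]

theorem I_GTL (D : Datum K I) {Lp : I → ℕ → SMod D} (hb : S_basis D) (hC : CFacts D Lp)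
    (γ : ∀ X : Sm D, Grd D X.rep.M) (h1 : StGcv D) (h2 : StGex D) (h3 : StGzc D) :
    StGtl γ hC := by
  intro i X
  have zX : ∀ (Z : Sm D) (w : List I), gX γ Z w = 0 ↔ Z.1 w = 0 := by
    intro Z w
    rw [← Z.ch_rep]
    exact h3 (gS γ Z) Z.rep.smp.toFdMod w
  refine ⟨?_, ?_⟩
  swap
  · apply QSh.ext'
    intro w
    rw [L_pow_apply, QSh.zero_apply, zX]
    exact Sm.ch_zero hC i X (Nat.lt_succ_self _) w
  · obtain ⟨a, ha⟩ : ∃ a, a = Sm.eps hC i X := ⟨_, rfl⟩
    obtain ⟨Y, hY⟩ : ∃ Y, Y = Sm.E hC i X := ⟨_, rfl⟩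
    have hem : SMod.Emax i a X.rep Y.rep := by rw [ha, hY]; exact Sm.emax hC i X
    have hquo : Quo D X.rep.M ((Lp i a).conv Y.rep) := by rw [ha, hY]; exact Sm.quo_rep hC i X
    rw [← ha, ← hY]
    obtain ⟨gL⟩ := gradable hb (Lp i a).n (Lp i a).M (Lp i a).smp
    obtain ⟨A, hAdef⟩ : ∃ A : GM D, A = (Lp i a).gm gL := ⟨_, rfl⟩
    have hA : FdMod D A.n A.M := by rw [hAdef]; exact (Lp i a).smp.toFdMod
    have hB : FdMod D (gS γ Y).n (gS γ Y).M := Y.rep.smp.toFdMod
    have hAB : FdMod D (A.conv (gS γ Y)).n (A.conv (gS γ Y)).M := Conv.fdMod hb hA hB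
    subst hAdef
    obtain ⟨f, hf⟩ := hquo
    have hs : IsSimpleModule (KLRAlg D) X.rep.M := X.rep.smp.simple
    have f0 : f ≠ 0 := by
      intro h
      have := IsSimpleModule.nontrivial (KLRAlg D) X.rep.M
      obtain ⟨v, hv⟩ := exists_ne (0 : X.rep.M)
      obtain ⟨u, hu⟩ := hf v
      rw [h, LinearMap.zero_apply] at hu
      exact hv hu.symm
    obtain ⟨t, π, hπ0, hπ⟩ := exists_homDeg (((Lp i a).gm gL).conv (gS γ Y)).g (γ X) f0
    have hπs : Function.Surjective π := LinearMap.surjective_of_ne_zero hπ0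
    have hker : ∀ v d, (((Lp i a).gm gL).conv (gS γ Y)).g.pr d ((LinearMap.ker π).subtype v) ∈
        LinearMap.range (LinearMap.ker π).subtype := by
      intro v d
      rw [Submodule.range_subtype, LinearMap.mem_ker, ← hπ.pr]
      have : π v = 0 := v.2
      rw [Submodule.subtype_apply, this, map_zero]
    let N : GM D := ⟨⟨LinearMap.ker π,
      Grd.ofInj _ _ (Submodule.injective_subtype _) hker⟩, (Lp i a).n + Y.rep.n,
      (hAB.sub (LinearMap.ker π)).strand⟩
    have hN : FdMod D N.n N.M := hAB.sub (LinearMap.ker π)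
    have hn : (gS γ X).n = (((Lp i a).gm gL).conv (gS γ Y)).n := by
      show X.rep.n = (Lp i a).n + Y.rep.n
      rw [hC.n_Lp, hem.1]
    have e1 := h2 N (((Lp i a).gm gL).conv (gS γ Y)) (gS γ X) (LinearMap.ker π).subtype π 0 t hAB
      rfl hn (Submodule.injective_subtype _) hπs (Submodule.range_subtype _).symm
      (Grd.ofInj_hom (((Lp i a).gm gL).conv (gS γ Y)).g (LinearMap.ker π).subtype
        (Submodule.injective_subtype _) hker) hπ
    have e2 : (((Lp i a).gm gL).conv (gS γ Y)).gch = ((Lp i a).gm gL).gch * gX γ Y :=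
      h1 ((Lp i a).gm gL) (gS γ Y) hA hB
    have hLY : QSh.L i (gX γ Y) = 0 := by
      apply QSh.ext'
      intro w
      rw [QSh.L_apply, QSh.zero_apply, zX, ← Y.ch_rep]
      exact hem.2.2 w
    obtain ⟨c, hc⟩ : ∃ c, c = ((Lp i a).gm gL).gch (List.replicate a i) := ⟨_, rfl⟩
    have zL : ∀ w, ((Lp i a).gm gL).gch w = 0 ↔ (Lp i a).ch w = 0 := h3 _ hA
    have hc0 : c ≠ 0 := by
      rw [hc, Ne, zL, hC.ch_Lp, if_pos rfl]
      exact Nat.factorial_ne_zero a
    have hLA : (QSh.L i ^ a) ((Lp i a).gm gL).gch = c • (1 : QSh I D.fm) := by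
      apply QSh.ext'
      intro w
      rw [L_pow_apply, QSh.smul_apply]
      cases w with
      | nil => rw [List.append_nil, QSh.one_nil, mul_one, hc]
      | cons j w =>
        rw [QSh.one_cons, mul_zero, zL, hC.ch_Lp, if_neg]
        intro h
        have := congrArg List.length h
        simp at this
    have hLN : (QSh.L i ^ a) N.gch = 0 := by
      apply QSh.ext'
      intro w
      rw [L_pow_apply, QSh.zero_apply, h3 N hN]
      have k1 := chr_quo hAB (Z := X.rep) π hπs (List.replicate a i ++ w)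
      have k2 := count hb hC i a Y.rep hem.2.2 w
      have k3 := hem.2.1 w
      have k4 : chr D (((Lp i a).gm gL).conv (gS γ Y)).n (((Lp i a).gm gL).conv (gS γ Y)).M
        (List.replicate a i ++ w) = a.factorial * Y.rep.ch w := k2
      rw [k4, k3] at k1
      have k5 : chr D N.n N.M (List.replicate a i ++ w) =
        chr D (((Lp i a).gm gL).conv (gS γ Y)).n (LinearMap.ker π) (List.replicate a i ++ w) := rfl
      rw [k5]
      omega
    refine ⟨Tm t * c, mul_ne_zero (Tm_ne t) hc0, ?_⟩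
    have e3 : (QSh.L i ^ a) (((Lp i a).gm gL).conv (gS γ Y)).gch = c • gX γ Y := by
      rw [e2, L_pow_mul i a _ _ hLY, hLA, smul_mul_assoc, one_mul]
    rw [e1, map_add, map_smul, map_smul, hLN, smul_zero, zero_add] at e3
    have e4 := congrArg (fun x => Tm t • x) e3
    simp only [smul_smul, ← Tm_add, add_neg_cancel, Tm_zero, one_smul] at e4
    exact e4

end Pool.Agent.KLS
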