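import Pool.Agent.Work.MP_e487d8_al.Y.Gk.Defs

/-! MP_e487d8_al, block GK, item GTR: the top part at the right end. -/

set_option autoImplicit false

open scoped LaurentPolynomial

open Pool.Agent.E487.Hopf Pool.Agent.KLSAbs

namespace Pool.Agent.KLS

variable {K I : Type} [Field K] [Fintype I] [DecidableEq I]

namespace XGTR

section alg

omit [Fintype I] [DecidableEq I]

variable {B : I → I → ℤ}

theorem R_pow_apply (i : I) (n : ℕ) (f : QSh I B) (w : List I) :
    ((QSh.R i) ^ n) f w = f (w ++ List.replicate n i) := by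
  induction n generalizing f w with
  | zero => rw [pow_zero, List.replicate_zero, List.append_nil]; rfl
  | succ n ih =>
    rw [pow_succ, Module.End.mul_apply, ih, QSh.R_apply, List.replicate_succ', List.append_assoc]

theorem L_mul_of_zero (i : I) (f g : QSh I B) (hg : QSh.L i g = 0) :
    QSh.L i (f * g) = QSh.L i f * g := by
  rw [QSh.L_mul, hg, mul_zero, add_zero]

theorem R_mul_of_zero (hm : QSh.StMirQ B) (i : I) (f g : QSh I B) (hf : QSh.R i f = 0) :
    QSh.R i (f * g) = f * QSh.R i g := by
  have h1 : QSh.L i (QSh.mir f) = 0 := by rw [hm.hL, hf, map_zero]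
  have h2 := L_mul_of_zero i (QSh.mir g) (QSh.mir f) h1
  have h3 : QSh.mir (QSh.R i (f * g)) = QSh.mir (f * QSh.R i g) := by
    rw [← hm.hL, hm.hmul, h2, hm.hL, hm.hmul]
  have h4 := congrArg QSh.mir h3
  rwa [QSh.mir_mir, QSh.mir_mir] at h4

theorem R_pow_mul_of_zero (hm : QSh.StMirQ B) (i : I) (n : ℕ) (f g : QSh I B)
    (hf : QSh.R i f = 0) : ((QSh.R i) ^ n) (f * g) = f * ((QSh.R i) ^ n) g := by
  induction n generalizing g with
  | zero => rfl
  | succ n ih =>
    rw [pow_succ, Module.End.mul_apply, R_mul_of_zero hm i f g hf, ih, Module.End.mul_apply]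

/-- the right derivation at `T = 1` -/
theorem ShR_pow_apply (i : I) (n : ℕ) (f : Sh I ℚ) (w : List I) :
    ((Sh.R i) ^ n) f w = f (w ++ List.replicate n i) := by
  induction n generalizing f w with
  | zero => rw [pow_zero, List.replicate_zero, List.append_nil]; rfl
  | succ n ih =>
    rw [pow_succ, Module.End.mul_apply, ih, Sh.R_apply, List.replicate_succ', List.append_assoc]

theorem ShR_pow_mul_of_zero (i : I) (n : ℕ) (f g : Sh I ℚ) (hf : Sh.R i f = 0) :
    ((Sh.R i) ^ n) (f * g) = f * ((Sh.R i) ^ n) g := by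
  induction n generalizing g with
  | zero => rfl
  | succ n ih =>
    rw [pow_succ, Module.End.mul_apply, Sh.R_mul, hf, zero_mul, zero_add, ih,
      Module.End.mul_apply]

end alg

variable {D : Datum K I}

/-- the kernel of a homogeneous surjection -/
theorem exact_gch (h2 : StGex D) (V V₂ : GM D) (hfd : FdMod D V.n V.M) (hn : V₂.n = V.n)
    (q : V.M →ₗ[KLRAlg D] V₂.M) (b : ℤ) (hq : Function.Surjective q)
    (hd : HomDeg V.g V₂.g b q) : ∃ V₁ : GM D, V₁.n = V.n ∧
      (∀ w, chr D V.n V₁.M w = chr D V.n (LinearMap.ker q) w) ∧ FdMod D V₁.n V₁.M ∧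
      V.gch = V₁.gch + Tm (-b) • V₂.gch := by
  have hmem : ∀ (v : LinearMap.ker q) (d : ℤ),
      V.g.pr d ((LinearMap.ker q).subtype v) ∈ LinearMap.range (LinearMap.ker q).subtype := by
    intro v d
    rw [Submodule.range_subtype, LinearMap.mem_ker, ← hd.pr]
    have h1 : q ((LinearMap.ker q).subtype v) = 0 := v.2
    rw [h1, map_zero]
  let V₁ : GM D := ⟨⟨LinearMap.ker q, V.g.ofInj (LinearMap.ker q).subtype
    (LinearMap.ker q).subtype_injective hmem⟩, V.n, (hfd.sub _).strand⟩
  refine ⟨V₁, rfl, fun _ => rfl, hfd.sub _, ?_⟩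
  have h3 := h2 V₁ V V₂ (LinearMap.ker q).subtype q 0 b hfd rfl hn
    (LinearMap.ker q).subtype_injective hq (Submodule.range_subtype _).symm
    (Grd.ofInj_hom V.g (LinearMap.ker q).subtype (LinearMap.ker q).subtype_injective hmem) hd
  rw [h3, Tm_zero, one_smul]

end XGTR

open XGTR in
theorem I_GTR (D : Datum K I) {Lp : I → ℕ → SMod D} (hb : S_basis D) (hC : CFacts D Lp)
    (hconv : S_conv D) (hmir : In.StMir hC hconv) (γ : ∀ X : Sm D, Grd D X.rep.M)
    (h1 : StGcv D) (h2 : StGex D) (h3 : StGzc D) (hm : QSh.StMirQ D.fm) : StGtr γ hC := by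
  intro i X
  -- characters
  have hgz : ∀ (Y : Sm D) (w : List I), gX γ Y w = 0 ↔ Y.1 w = 0 := by
    intro Y w
    have h := h3 (gS γ Y) Y.rep.smp.toFdMod w
    refine h.trans ?_
    show Y.rep.ch w = 0 ↔ _
    rw [Y.ch_rep]
  have hmv : ∀ (Y : Sm D) (n : ℕ) (w : List I),
      Y.1 (w ++ List.replicate n i) = (In.mirS Y).1 (List.replicate n i ++ w.reverse) := by
    intro Y n w
    rw [hmir.apply, List.reverse_append, List.reverse_reverse, List.reverse_replicate]
  refine ⟨?_, ?_⟩
  swap
  · apply QSh.ext'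
    intro w
    rw [R_pow_apply, QSh.zero_apply, hgz, hmv]
    exact Sm.ch_zero hC i (In.mirS X) (Nat.lt_succ_self _) _
  set a := In.eps' hC i X with ha
  set A := In.E' hC i X with hA
  let L : Sm D := Sm.cls (Lp i a)
  -- the character of `L`
  have hLch : ∀ ν, L.1 ν = if ν = List.replicate a i then a.factorial else 0 := fun ν =>
    hC.ch_Lp i a ν
  have hLm : In.mirS L = L := by
    apply Sm.ext'
    intro ν
    rw [hmir.apply, hLch, hLch]
    by_cases h : ν = List.replicate a i
    · rw [if_pos h, h, List.reverse_replicate, if_pos rfl]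
    · rw [if_neg h, if_neg]
      intro h'
      apply h
      rw [← List.reverse_reverse ν, h', List.reverse_replicate]
  have hmA : In.mirS A = Sm.E hC i (In.mirS X) := hmir.mir_mir _
  have hHd : In.Hd A L X := by
    rw [← hmir.hd, hLm, hmA]
    exact SMod.quo_congr (Sm.iso_rep hC (Sm.ch_rep_cls _)).symm (SMod.Iso.refl _)
      (SMod.Iso.refl _) (Sm.quo_rep hC i (In.mirS X))
  -- characters of `A` and `X`
  have hAi : ∀ w, A.1 (w ++ [i]) = 0 := by
    intro w
    have h := hmv A 1 w
    rw [hmA] at h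
    exact h.trans (Sm.E_cons hC i (In.mirS X) w.reverse)
  have hXa : ∀ w, X.1 (w ++ List.replicate a i) = a.factorial * A.1 w := by
    intro w
    rw [hmv, ha]
    have h := Sm.ch_eps hC i (In.mirS X) w.reverse
    refine h.trans ?_
    rw [← hmA, hmir.apply, List.reverse_reverse]
    rfl
  -- the homogeneous surjection
  obtain ⟨f, hf⟩ := hHd
  have hXs : IsSimpleModule (KLRAlg D) X.rep.M := X.rep.smp.simple
  have hXn : Nontrivial X.rep.M := IsSimpleModule.nontrivial (KLRAlg D) _
  have hf0 : f ≠ 0 := by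
    rintro rfl
    obtain ⟨v, hv⟩ := exists_ne (0 : X.rep.M)
    obtain ⟨u, hu⟩ := hf v
    exact hv hu.symm
  let V : GM D := (gS γ A).conv (gS γ L)
  have hfdV : FdMod D V.n V.M := Sm.fd_conv hconv A.rep L.rep
  obtain ⟨s, f', hf', hdeg⟩ := exists_homDeg V.g (γ X) (f := f) hf0
  have hsurj : Function.Surjective f' := LinearMap.surjective_of_ne_zero hf'
  have hn : (gS γ X).n = V.n := quo_strand hfdV (Z := X.rep) ⟨f', hsurj⟩
  obtain ⟨V₁, hn1, hc1, hfd1, hex⟩ := exact_gch h2 V (gS γ X) hfdV hn f' s hsurj hdeg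
  -- the kernel
  have hker : ((QSh.R i) ^ a) V₁.gch = 0 := by
    apply QSh.ext'
    intro w
    rw [R_pow_apply, QSh.zero_apply, h3 V₁ hfd1, hn1, hc1]
    have e1 := chr_quo hfdV (Z := X.rep) f' hsurj (w ++ List.replicate a i)
    have e2 : X.rep.ch (w ++ List.replicate a i) = a.factorial * A.1 w := by
      rw [X.ch_rep, hXa]
    have e3 : chr D V.n V.M (w ++ List.replicate a i) = a.factorial * A.1 w := by
      have e4 : chrQ D (A.rep.n + L.rep.n) (A.rep.conv L.rep) = A.rep.chq * L.rep.chq :=
        Sm.chrQ_conv hconv A.rep L.rep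
      rw [Sm.chq_rep, Sm.chq_rep] at e4
      have e5 : Sh.R i (Sm.chq A) = 0 := by
        apply Sh.ext'
        intro w
        rw [Sh.R_apply, Sh.zero_apply]
        show ((A.1 (w ++ [i]) : ℕ) : ℚ) = 0
        rw [hAi, Nat.cast_zero]
      have e6 : ((Sh.R i) ^ a) (Sm.chq L) = (a.factorial : ℚ) • (1 : Sh I ℚ) := by
        apply Sh.ext'
        intro w
        rw [ShR_pow_apply, Sh.smul_apply]
        show ((L.1 (w ++ List.replicate a i) : ℕ) : ℚ) = _
        rw [hLch]
        cases w with
        | nil => rw [List.nil_append, if_pos rfl, Sh.one_nil, mul_one]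
        | cons j w =>
          rw [if_neg, Sh.one_cons, mul_zero, Nat.cast_zero]
          intro h
          have h' := congrArg List.length h
          rw [List.length_append, List.length_cons] at h'
          omega
      have e7 := ShR_pow_mul_of_zero i a (Sm.chq A) (Sm.chq L) e5
      rw [e6, mul_smul_comm, mul_one, ← e4] at e7
      have e8 := congrFun e7 w
      rw [ShR_pow_apply, chrQ_apply, Sh.smul_apply] at e8
      have e9 : ((chr D (A.rep.n + L.rep.n) (A.rep.conv L.rep) (w ++ List.replicate a i) : ℕ) : ℚ)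
          = ((a.factorial * A.1 w : ℕ) : ℚ) := by
        rw [e8, Nat.cast_mul]
        rfl
      exact_mod_cast e9
    have e10 : chr D V.n V.M (w ++ List.replicate a i) =
      chr D V.n (LinearMap.ker f') (w ++ List.replicate a i) +
        X.rep.ch (w ++ List.replicate a i) := e1
    rw [e3, e2] at e10
    exact (Nat.add_eq_right.1 e10.symm)
  -- the convolution product
  have hV : V.gch = gX γ A * gX γ L := h1 (gS γ A) (gS γ L) A.rep.smp.toFdMod L.rep.smp.toFdMod
  have hRA : QSh.R i (gX γ A) = 0 := by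
    apply QSh.ext'
    intro w
    rw [QSh.R_apply, QSh.zero_apply, hgz, hAi]
  set c := gX γ L (List.replicate a i) with hc
  have hc0 : c ≠ 0 := by
    intro h
    rw [hc, hgz, hLch, if_pos rfl] at h
    exact Nat.factorial_ne_zero _ h
  have hRL : ((QSh.R i) ^ a) (gX γ L) = c • (1 : QSh I D.fm) := by
    apply QSh.ext'
    intro w
    rw [R_pow_apply, QSh.smul_apply]
    cases w with
    | nil => rw [List.nil_append, QSh.one_nil, mul_one]
    | cons j w =>
      rw [QSh.one_cons, mul_zero, hgz, hLch, if_neg]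
      intro h
      have h' := congrArg List.length h
      rw [List.length_append, List.length_cons] at h'
      omega
  have hfin := congrArg ((QSh.R i) ^ a) hex
  rw [hV, R_pow_mul_of_zero hm i a _ _ hRA, hRL, map_add, hker, zero_add, map_smul,
    mul_smul_comm, mul_one] at hfin
  refine ⟨Tm s * c, mul_ne_zero ?_ hc0, ?_⟩
  · intro h
    have h' := congrArg ev1 h
    rw [ev1_T, map_zero] at h'
    exact one_ne_zero h'
  · have h := congrArg (fun z => Tm s • z) hfin
    simp only [smul_smul] at h
    rw [← Tm_add, add_neg_cancel, Tm_zero, one_smul] at h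
    exact h.symm

end Pool.Agent.KLS
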