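import Pool.Agent.Work.MP_e487d8_al.Y.Gk.Defs

/-! MP_e487d8_al, block GK, GWT: the weight of the graded character of a simple module. -/

set_option autoImplicit false

open scoped LaurentPolynomial

open Pool.Agent.E487.Hopf Pool.Agent.KLSAbs

namespace Pool.Agent.KLS

variable {K I : Type} [Field K] [Fintype I] [DecidableEq I]

namespace XGWT

omit [Fintype I] in
theorem bw_eq [Fintype I] (B : I → I → ℤ) (i : I) (w : List I) :
    bw B i w = ∑ j, B i j * (w.count j : ℤ) := by
  induction w with
  | nil => simp [bw]
  | cons k w ih =>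
    rw [bw, ih]
    have h : ∀ j, B i j * ((k :: w).count j : ℤ) =
        (if k = j then B i j else 0) + B i j * (w.count j : ℤ) := by
      intro j
      rw [List.count_cons]
      by_cases hj : k = j
      · subst hj
        simp
        ring
      · have h1 : (k == j) = false := by simpa using hj
        rw [if_neg hj, h1]
        simp
    rw [Finset.sum_congr rfl fun j _ => h j, Finset.sum_add_distrib, Finset.sum_ite_eq]
    simp

omit [DecidableEq I] in
theorem sumW_eq (a : I → ℤ) (v : I →₀ ℕ) : sumW a v = ∑ j, a j * (v j : ℤ) := by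
  unfold sumW
  rw [Finsupp.sum_fintype]
  intro j
  simp

end XGWT

theorem I_GWT (D : Datum K I) (h : StGzc D) (γ : ∀ X : Sm D, Grd D X.rep.M) : StGwt γ := by
  intro i X
  apply QSh.ext'
  intro w
  rw [QSh.Kt_apply, QSh.smul_apply]
  by_cases h0 : gX γ X w = 0
  · rw [h0, mul_zero, mul_zero]
  · have h1 : X.1 w ≠ 0 := by
      intro h2
      apply h0
      refine (h (gS γ X) X.rep.smp.toFdMod w).2 ?_
      have h3 := congrFun X.ch_rep w
      rw [h2] at h3
      exact h3
    have h4 : bw D.fm i w = sumW (fun j => D.d i * D.A i j) (Sm.wt X) := by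
      rw [XGWT.bw_eq, XGWT.sumW_eq]
      refine Finset.sum_congr rfl fun j _ => ?_
      rw [Sm.count_eq h1 j]
      rfl
    rw [h4]

end Pool.Agent.KLS
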