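import Pool.Agent.Work.MP_e487d8_al.Y.Gk.Defs

/-! MP_e487d8_al, block GK: vanishing of the graded character. -/

set_option autoImplicit false

open scoped LaurentPolynomial

open Pool.Agent.E487.Hopf Pool.Agent.KLSAbs

namespace Pool.Agent.KLS

variable {K I : Type} [Field K] [Fintype I] [DecidableEq I]

theorem I_GZC (D : Datum K I) (_h : StGcf D) (h' : StGev D) : StGzc D := by
  intro V hV w
  constructor
  · intro h0
    have h2 : QSh.evR V.gch w = chrQ D V.n V.M w := by rw [h' V hV]
    rw [QSh.evR_apply, h0, map_zero, chrQ_apply] at h2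
    exact_mod_cast h2.symm
  · intro h0
    have hg : ∀ d, V.gdm w d = 0 := by
      intro d
      unfold GM.gdm
      split_ifs with hl
      · unfold chr at h0
        rw [if_pos hl] at h0
        haveI := hV.fd
        have h1 : wordSp D V.M w = ⊥ := Submodule.finrank_eq_zero.mp h0
        have h2 : wsp V.g w d = ⊥ := by
          rw [eq_bot_iff]
          intro u hu
          have h3 : u ∈ wordSp D V.M w := ⟨u, (mem_wsp.1 hu).1⟩
          rw [h1] at h3
          exact h3
        rw [h2, finrank_bot]
      · rfl
    unfold GM.gch
    simp [hg]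

end Pool.Agent.KLS
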