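import Pool.Agent.Work.MP_e487d8_al.Y.Gk.AlgB

/-! MP_e487d8_al, block GK, item LIA: linear independence follows from the value at `T = 1`. -/

set_option autoImplicit false

open scoped LaurentPolynomial

open Pool.Agent.E487.Hopf

namespace Pool.Agent.KLS

namespace LiaAux

theorem dvd_nat (n : ℕ) : (Tm 1 - 1) ∣ Tm (n : ℤ) - 1 := by
  have h : Tm (n : ℤ) = (Tm 1) ^ n := by
    rw [LaurentPolynomial.T_pow, mul_one]
  rw [h]
  simpa using sub_dvd_pow_sub_pow (Tm 1) 1 n

theorem dvd_int (n : ℤ) : (Tm 1 - 1) ∣ Tm n - 1 := by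
  obtain ⟨k, rfl | rfl⟩ := n.eq_nat_or_neg
  · exact dvd_nat k
  · have h : Tm (-(k : ℤ)) - 1 = -Tm (-(k : ℤ)) * (Tm (k : ℤ) - 1) := by
      have h1 : Tm (-(k : ℤ)) * Tm (k : ℤ) = 1 := by
        rw [← Tm_add, neg_add_cancel, Tm_zero]
      linear_combination h1
    rw [h]
    exact (dvd_nat k).mul_left _

theorem ev1_C (m : ℤ) : ev1 (LaurentPolynomial.C m) = m := by
  unfold ev1
  rw [LaurentPolynomial.eval₂_C]
  simp

theorem dvd_ev (c : ℤ[T;T⁻¹]) :
    ∃ m : ℤ, ev1 c = m ∧ (Tm 1 - 1) ∣ c - LaurentPolynomial.C m := by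
  induction c using LaurentPolynomial.induction_on' with
  | add p q hp hq =>
    obtain ⟨m, hm, hd⟩ := hp
    obtain ⟨m', hm', hd'⟩ := hq
    refine ⟨m + m', by rw [map_add, hm, hm']; push_cast; rfl, ?_⟩
    have : p + q - LaurentPolynomial.C (m + m') =
        (p - LaurentPolynomial.C m) + (q - LaurentPolynomial.C m') := by
      rw [map_add]; ring
    rw [this]
    exact dvd_add hd hd'
  | C_mul_T n a =>
    refine ⟨a, by rw [map_mul, ev1_C]; erw [ev1_T]; rw [mul_one], ?_⟩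
    have : LaurentPolynomial.C a * LaurentPolynomial.T n - LaurentPolynomial.C a =
        LaurentPolynomial.C a * (Tm n - 1) := by ring
    rw [this]
    exact (dvd_int n).mul_left _

theorem dvd_of_ev (c : ℤ[T;T⁻¹]) (h : ev1 c = 0) : (Tm 1 - 1) ∣ c := by
  obtain ⟨m, hm, hd⟩ := dvd_ev c
  rw [h] at hm
  have hm0 : m = 0 := by exact_mod_cast hm.symm
  rw [hm0, map_zero, sub_zero] at hd
  exact hd

theorem noeth : IsNoetherianRing ℤ[T;T⁻¹] :=
  IsLocalization.isNoetherianRing (Submonoid.powers (Polynomial.X : Polynomial ℤ)) ℤ[T;T⁻¹]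
    inferInstance

theorem tm_ne : (Tm 1 - 1 : ℤ[T;T⁻¹]) ≠ 0 := by
  intro h
  have h1 := congrArg (LaurentPolynomial.eval₂ (Int.castRingHom ℚ)
    (Units.mk0 (2 : ℚ) two_ne_zero)) h
  rw [map_sub, LaurentPolynomial.eval₂_T, map_one, map_zero] at h1
  norm_num at h1

theorem not_unit : ¬ IsUnit (Tm 1 - 1 : ℤ[T;T⁻¹]) := by
  intro h
  have := h.map ev1
  rw [map_sub, ev1_T, map_one, sub_self] at this
  exact not_isUnit_zero this

theorem zero_of_pow (c : ℤ[T;T⁻¹]) (h : ∀ n : ℕ, (Tm 1 - 1) ^ n ∣ c) : c = 0 := by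
  by_contra hc
  have := noeth
  obtain ⟨n, hn⟩ := FiniteMultiplicity.of_not_isUnit not_unit hc
  exact hn (h (n + 1))

end LiaAux

open LiaAux in
theorem QSh.I_LIA (I : Type) : QSh.StLia I := by
  intro B S F hF
  rw [linearIndependent_iff'] at hF ⊢
  intro s g hg i hi
  apply zero_of_pow
  intro n
  induction n generalizing g with
  | zero => rw [pow_zero]; exact one_dvd _
  | succ n ih =>
    have h1 : ∀ j ∈ s, ev1 (g j) = 0 := by
      apply hF s (fun j => ev1 (g j))
      have := congrArg (fun f => evR f) hg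
      simpa only [map_sum, evR_smul, map_zero] using this
    have h2 : ∀ j : S, ∃ c : ℤ[T;T⁻¹], j ∈ s → g j = (Tm 1 - 1) * c := by
      intro j
      by_cases hj : j ∈ s
      · obtain ⟨c, hc⟩ := dvd_of_ev _ (h1 j hj)
        exact ⟨c, fun _ => hc⟩
      · exact ⟨0, fun h => absurd h hj⟩
    choose c hc using h2
    have h3 : ∑ j ∈ s, c j • F j = 0 := by
      apply QSh.smul_cancel tm_ne
      rw [smul_zero, Finset.smul_sum, ← hg]
      apply Finset.sum_congr rfl
      intro j hj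
      rw [hc j hj, mul_smul]
    obtain ⟨d, hd⟩ := ih c h3
    exact ⟨d, by rw [hc i hi, hd, pow_succ]; ring⟩

end Pool.Agent.KLS
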