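import Pool.Agent.Work.MP_e487d8_al.Y.Gk.AlgB

/-! MP_e487d8_al, block GK: MIRQ, the mirror image of the quantum shuffle product. -/

set_option autoImplicit false

open scoped LaurentPolynomial

namespace Pool.Agent.KLS

namespace QSh

namespace XMIRQ

variable {I : Type} {B : I → I → ℤ}

theorem bw_append (i : I) (μ ν : List I) : bw B i (μ ++ ν) = bw B i μ + bw B i ν := by
  induction μ with
  | nil => simp [bw]
  | cons j μ ih => rw [List.cons_append, bw, bw, ih]; ring

theorem bw_reverse (i : I) (ν : List I) : bw B i ν.reverse = bw B i ν := by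
  induction ν with
  | nil => rfl
  | cons j ν ih =>
    rw [List.reverse_cons, bw_append, ih, bw, bw, bw]
    ring

theorem L_R (i j : I) (f : QSh I B) : L i (R j f) = R j (L i f) := rfl

theorem R_Kt (i j : I) (f : QSh I B) : R j (Kt i f) = Tm (-(B i j)) • Kt i (R j f) := by
  apply ext'
  intro w
  rw [R_apply, Kt_apply, smul_apply, Kt_apply, R_apply, bw_append, neg_add, Tm_add, bw, bw,
    add_zero]
  ring

theorem R_mul (hB : ∀ i j, B i j = B j i) (j : I) (f g : QSh I B) :
    R j (f * g) = f * R j g + R j f * Kt j g := by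
  apply ext'
  intro w
  induction w generalizing f g with
  | nil =>
    change sm [j] f g = sm [] f (R j g) + sm [] (R j f) (Kt j g)
    simp only [sm, Kt_apply, bw, neg_zero, Tm_zero, one_mul]
    change f [j] * g [] + f [] * g [j] = f [] * g [j] + f [j] * g []
    ring
  | cons i w ih =>
    have h1 := ih (L i f) g
    have h2 := ih (Kt i f) (L i g)
    have e : R j (f * g) (i :: w) = R j (L i f * g) w + R j (Kt i f * L i g) w := rfl
    rw [e, h1, h2, add_apply, add_apply, add_apply, mul_cons, mul_cons, L_R, L_R, R_Kt, L_Kt,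
      smul_mul_assoc, mul_smul_comm, hB i j]
    ring

theorem L_mir (i : I) (f : QSh I B) : L i (mir f) = mir (R i f) := by
  apply ext'
  intro w
  rw [L_apply, mir_apply, mir_apply, R_apply, List.reverse_cons]

theorem R_mir (i : I) (f : QSh I B) : R i (mir f) = mir (L i f) := by
  apply ext'
  intro w
  rw [R_apply, mir_apply, mir_apply, L_apply, List.reverse_append]
  rfl

theorem Kt_mir (i : I) (f : QSh I B) : Kt i (mir f) = mir (Kt i f) := by
  apply ext'
  intro w
  rw [Kt_apply, mir_apply, mir_apply, Kt_apply, bw_reverse]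

theorem mir_mul (hB : ∀ i j, B i j = B j i) (f g : QSh I B) : mir (f * g) = mir g * mir f := by
  apply ext'
  intro w
  induction w generalizing f g with
  | nil =>
    change sm [] f g = sm [] (mir g) (mir f)
    simp only [sm, mir_apply, List.reverse_nil]
    ring
  | cons i w ih =>
    have e : mir (f * g) (i :: w) = mir (R i (f * g)) w := by
      rw [← L_mir, L_apply]
    rw [e, R_mul hB, map_add, add_apply, ih, ih, mul_cons, L_mir, L_mir, Kt_mir]

end XMIRQ

/-- MIRQ: the mirror image -/
theorem I_MIRQ (I : Type) (B : I → I → ℤ) (hB : ∀ i j, B i j = B j i) : QSh.StMirQ B where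
  hmul := XMIRQ.mir_mul hB
  hL := XMIRQ.L_mir
  hR := XMIRQ.R_mir
  hKt := XMIRQ.Kt_mir

end QSh

end Pool.Agent.KLS
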