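import Pool.Agent.Work.MP_e487d8_al.Y.Gk.AlgB

/-! MP_e487d8_al, block GK: STRING, the string formula on the left. -/

set_option autoImplicit false

open scoped LaurentPolynomial

namespace Pool.Agent.KLS

namespace QSh

namespace XSTRING

variable {I : Type} {B : I → I → ℤ}

/-- the quantum number `1 + x + .. + x^(k-1)` -/
noncomputable def qn (x : ℤ[T;T⁻¹]) (k : ℕ) : ℤ[T;T⁻¹] := ∑ j ∈ Finset.range k, x ^ j

/-- the quantum factorial -/
noncomputable def fac (x : ℤ[T;T⁻¹]) : ℕ → ℤ[T;T⁻¹]
  | 0 => 1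
  | n + 1 => fac x n * qn x (n + 1)

theorem qn_add (x : ℤ[T;T⁻¹]) (p q : ℕ) : qn x (p + q) = qn x p + x ^ p * qn x q := by
  unfold qn
  rw [Finset.sum_range_add, Finset.mul_sum]
  congr 1
  apply Finset.sum_congr rfl
  intro j _
  rw [pow_add]

theorem ev1_qn (m : ℤ) (k : ℕ) : ev1 (qn (Tm m) k) = k := by
  unfold qn
  rw [map_sum]
  simp only [map_pow, ev1_T, one_pow, Finset.sum_const, Finset.card_range, nsmul_eq_mul, mul_one]

theorem ev1_fac (m : ℤ) (n : ℕ) : ev1 (fac (Tm m) n) = (n.factorial : ℚ) := by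
  induction n with
  | zero => rw [fac, map_one, Nat.factorial_zero, Nat.cast_one]
  | succ n ih =>
    rw [fac, map_mul, ih, ev1_qn, Nat.factorial_succ, Nat.cast_mul, mul_comm]

theorem fac_ne (m : ℤ) (n : ℕ) : fac (Tm m) n ≠ 0 := by
  intro h
  have h1 := ev1_fac m n
  rw [h, map_zero] at h1
  exact (Nat.cast_ne_zero.mpr (Nat.factorial_ne_zero n)) h1.symm

theorem L_pow_Kt (i : I) (n : ℕ) (f : QSh I B) :
    ((L i) ^ n) (Kt i f) = (Tm (-B i i)) ^ n • Kt i (((L i) ^ n) f) := by
  induction n with
  | zero => rw [pow_zero, pow_zero, one_smul]; rfl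
  | succ n ih =>
    rw [pow_succ', Module.End.mul_apply, ih, map_smul, L_Kt, smul_smul, Module.End.mul_apply,
      pow_succ]

theorem L_pow_L (i : I) (n : ℕ) (f : QSh I B) : ((L i) ^ n) (L i f) = ((L i) ^ (n + 1)) f := by
  rw [pow_succ, Module.End.mul_apply]

/-- the top term of the quantum Leibniz rule -/
theorem top (i : I) (α : ℤ) (n : ℕ) : ∀ (p q : ℕ) (f g : QSh I B), p + q = n →
    ((L i) ^ (p + 1)) f = 0 → ((L i) ^ (q + 1)) g = 0 →
    Kt i (((L i) ^ p) f) = Tm (-α) • ((L i) ^ p) f →
    (fac (Tm (-B i i)) p * fac (Tm (-B i i)) q) • ((L i) ^ (p + q)) (f * g) =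
      (fac (Tm (-B i i)) (p + q) * Tm (-(q * α))) • (((L i) ^ p) f * ((L i) ^ q) g) := by
  induction n with
  | zero =>
    intro p q f g hpq h1 h2 h3
    obtain ⟨rfl, rfl⟩ : p = 0 ∧ q = 0 := by omega
    simp only [fac, Nat.cast_zero, zero_mul, neg_zero, Tm_zero, mul_one, add_zero, pow_zero,
      one_smul]
    rfl
  | succ n ih =>
    intro p q f g hpq h1 h2 h3
    have hL : ((L i) ^ (p + q)) (f * g) =
        ((L i) ^ n) (L i f * g) + ((L i) ^ n) (Kt i f * L i g) := by
      rw [hpq, ← L_pow_L, L_mul, map_add]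
    have hA : (fac (Tm (-B i i)) p * fac (Tm (-B i i)) q) • ((L i) ^ n) (L i f * g) =
        (fac (Tm (-B i i)) n * qn (Tm (-B i i)) p * Tm (-(q * α))) •
          (((L i) ^ p) f * ((L i) ^ q) g) := by
      cases p with
      | zero =>
        have h0 : L i f = 0 := by simpa using h1
        rw [h0, zero_mul, map_zero, smul_zero]
        simp [qn]
      | succ p =>
        have hn : p + q = n := by omega
        have := ih p q (L i f) g hn (by rw [L_pow_L]; exact h1) h2 (by rw [L_pow_L]; exact h3)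
        rw [L_pow_L, hn] at this
        calc (fac (Tm (-B i i)) (p + 1) * fac (Tm (-B i i)) q) • ((L i) ^ n) (L i f * g)
            = qn (Tm (-B i i)) (p + 1) • (fac (Tm (-B i i)) p * fac (Tm (-B i i)) q) •
                ((L i) ^ n) (L i f * g) := by
              rw [smul_smul, fac]; congr 1; ring
          _ = _ := by
              rw [this, smul_smul]; congr 1; ring
    have hB : (fac (Tm (-B i i)) p * fac (Tm (-B i i)) q) • ((L i) ^ n) (Kt i f * L i g) =
        (fac (Tm (-B i i)) n * ((Tm (-B i i)) ^ p * qn (Tm (-B i i)) q) * Tm (-(q * α))) •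
          (((L i) ^ p) f * ((L i) ^ q) g) := by
      cases q with
      | zero =>
        have h0 : L i g = 0 := by simpa using h2
        rw [h0, mul_zero, map_zero, smul_zero]
        simp [qn]
      | succ q =>
        have hn : p + q = n := by omega
        have := ih p q (Kt i f) (L i g) hn (by rw [L_pow_Kt, h1, map_zero, smul_zero])
          (by rw [L_pow_L]; exact h2) (by
            rw [L_pow_Kt, h3]
            simp only [map_smul, h3]
            rw [smul_comm])
        rw [L_pow_L, hn, L_pow_Kt, h3] at this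
        calc (fac (Tm (-B i i)) p * fac (Tm (-B i i)) (q + 1)) • ((L i) ^ n) (Kt i f * L i g)
            = qn (Tm (-B i i)) (q + 1) • (fac (Tm (-B i i)) p * fac (Tm (-B i i)) q) •
                ((L i) ^ n) (Kt i f * L i g) := by
              rw [smul_smul, fac]; congr 1; ring
          _ = _ := by
              rw [this, smul_smul, smul_mul_assoc, smul_mul_assoc, smul_smul, smul_smul]
              congr 1
              rw [show -(((q + 1 : ℕ) : ℤ) * α) = -((q : ℤ) * α) + -α by push_cast; ring, Tm_add]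
              ring
    rw [hL, smul_add, hA, hB, ← add_smul, hpq, fac, ← hpq, qn_add]
    congr 1
    ring

end XSTRING

open XSTRING in
theorem I_STRING (I : Type) : QSh.StString I := by
  intro B i f g p q a α β h1 h2 h3 h4 h5
  have h6 := top i α (p + q) p q f g rfl h1 h2 h3
  have h7 := top i β (q + p) q p g f rfl h2 h1 h4
  rw [h5, map_smul, smul_comm, add_comm q p, mul_comm (fac (Tm (-B i i)) q), h6] at h7
  have h8 : (fac (Tm (-B i i)) (p + q) * Tm (-(p * β))) • (((L i) ^ q) g * ((L i) ^ p) f) =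
      (fac (Tm (-B i i)) (p + q) * Tm (-(p * β))) •
        (Tm (a - q * α + p * β) • (((L i) ^ p) f * ((L i) ^ q) g)) := by
    rw [← h7, smul_smul, smul_smul]
    congr 1
    rw [mul_assoc, ← Tm_add, mul_left_comm, ← Tm_add]
    congr 2
    ring
  refine smul_cancel (mul_ne_zero (fac_ne _ _) ?_) h8
  exact (LaurentPolynomial.isUnit_T _).ne_zero

end QSh

end Pool.Agent.KLS
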