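import Pool.Agent.Work.MP_e487d8_al.Y.Gk.AlgB

/-! MP_e487d8_al, block GK: STRINGR, the string formula on the right. -/

set_option autoImplicit false

open scoped LaurentPolynomial

namespace Pool.Agent.KLS

namespace QSh

namespace XSTRINGR

variable {I : Type} {B : I → I → ℤ}

theorem L_pow_mir (hm : StMirQ B) (i : I) (n : ℕ) (f : QSh I B) :
    ((L i) ^ n) (mir f) = mir (((R i) ^ n) f) := by
  induction n generalizing f with
  | zero => rw [pow_zero, pow_zero]; rfl
  | succ n ih =>
    rw [pow_succ, pow_succ, Module.End.mul_apply, Module.End.mul_apply, hm.hL, ih]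

theorem mir_inj {f g : QSh I B} (h : mir f = mir g) : f = g := by
  rw [← mir_mir f, h, mir_mir]

end XSTRINGR

open XSTRINGR in
theorem I_STRINGR (I : Type) (h : QSh.StString I) (B : I → I → ℤ) (hm : QSh.StMirQ B) :
    QSh.StStringR B := by
  intro i f g p q a α β h1 h2 h3 h4 h5
  have h6 := h B i (mir f) (mir g) p q a α β
    (by rw [L_pow_mir hm, h1, map_zero]) (by rw [L_pow_mir hm, h2, map_zero])
    (by rw [L_pow_mir hm, hm.hKt, h3, map_smul]) (by rw [L_pow_mir hm, hm.hKt, h4, map_smul])
    (by rw [← hm.hmul, h5, map_smul, hm.hmul])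
  rw [L_pow_mir hm, L_pow_mir hm, ← hm.hmul, ← hm.hmul, ← map_smul] at h6
  exact mir_inj h6

end QSh

end Pool.Agent.KLS
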