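import Mathlib

/-!
MP_e487d8_al, block GK: the quantum shuffle ring over the Laurent polynomials.

`QSh I B` is the ring of all functions on the words `List I` with values in `ℤ[T;T⁻¹]` with the
quantum shuffle product for the form `B : I → I → ℤ`.
-/

set_option autoImplicit false

open scoped LaurentPolynomial

namespace Pool.Agent.KLS

/-- functions on words -/
@[nolint unusedArguments]
def QSh (I : Type) (_B : I → I → ℤ) : Type := List I → ℤ[T;T⁻¹]

variable {I : Type} {B : I → I → ℤ}

noncomputable instance : AddCommGroup (QSh I B) := inferInstanceAs (AddCommGroup (List I → ℤ[T;T⁻¹]))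
noncomputable instance : Module ℤ[T;T⁻¹] (QSh I B) :=
  inferInstanceAs (Module ℤ[T;T⁻¹] (List I → ℤ[T;T⁻¹]))

/-- `(α_i, wt w)` -/
def bw (B : I → I → ℤ) (i : I) : List I → ℤ
  | [] => 0
  | j :: w => B i j + bw B i w

/-- the monomial `T^n` -/
noncomputable abbrev Tm (n : ℤ) : ℤ[T;T⁻¹] := LaurentPolynomial.T n

theorem Tm_add (m n : ℤ) : Tm (m + n) = Tm m * Tm n := LaurentPolynomial.T_add m n
theorem Tm_zero : Tm 0 = 1 := LaurentPolynomial.T_zero

namespace QSh

theorem ext' {f g : QSh I B} (h : ∀ w, f w = g w) : f = g := funext h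

@[simp] theorem add_apply (f g : QSh I B) (w : List I) : (f + g) w = f w + g w := rfl
@[simp] theorem sub_apply (f g : QSh I B) (w : List I) : (f - g) w = f w - g w := rfl
@[simp] theorem neg_apply (f : QSh I B) (w : List I) : (-f) w = -(f w) := rfl
@[simp] theorem zero_apply (w : List I) : (0 : QSh I B) w = 0 := rfl
@[simp] theorem smul_apply (c : ℤ[T;T⁻¹]) (f : QSh I B) (w : List I) : (c • f) w = c * f w := rfl

/-- deletion of the first letter -/
noncomputable def L (i : I) : QSh I B →ₗ[ℤ[T;T⁻¹]] QSh I B where
  toFun f := fun w => f (i :: w)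
  map_add' _ _ := rfl
  map_smul' _ _ := rfl

/-- deletion of the last letter -/
noncomputable def R (i : I) : QSh I B →ₗ[ℤ[T;T⁻¹]] QSh I B where
  toFun f := fun w => f (w ++ [i])
  map_add' _ _ := rfl
  map_smul' _ _ := rfl

/-- the twist by the weight: `T^{-(α_i, wt w)}` -/
noncomputable def Kt (i : I) : QSh I B →ₗ[ℤ[T;T⁻¹]] QSh I B where
  toFun f := fun w => Tm (-bw B i w) * f w
  map_add' f g := ext' fun w => by
    change Tm (-bw B i w) * (f w + g w) = Tm (-bw B i w) * f w + Tm (-bw B i w) * g w
    ring
  map_smul' c f := ext' fun w => by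
    change Tm (-bw B i w) * (c * f w) = c * (Tm (-bw B i w) * f w)
    ring

theorem L_apply (i : I) (f : QSh I B) (w : List I) : L i f w = f (i :: w) := rfl
theorem R_apply (i : I) (f : QSh I B) (w : List I) : R i f w = f (w ++ [i]) := rfl
theorem Kt_apply (i : I) (f : QSh I B) (w : List I) : Kt i f w = Tm (-bw B i w) * f w := rfl

theorem L_Kt (i j : I) (f : QSh I B) : L j (Kt i f) = Tm (-B i j) • Kt i (L j f) := by
  apply ext'
  intro w
  rw [L_apply, Kt_apply, smul_apply, Kt_apply, L_apply, bw, ← mul_assoc, ← Tm_add]
  congr 2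
  ring

theorem Kt_Kt (i j : I) (f : QSh I B) : Kt i (Kt j f) = Kt j (Kt i f) := by
  apply ext'
  intro w
  rw [Kt_apply, Kt_apply, Kt_apply, Kt_apply]
  ring

/-- the value of the quantum shuffle product -/
noncomputable def sm : List I → QSh I B → QSh I B → ℤ[T;T⁻¹]
  | [], f, g => f [] * g []
  | i :: w, f, g => sm w (L i f) g + sm w (Kt i f) (L i g)

theorem sm_add_left (w : List I) (f f' g : QSh I B) : sm w (f + f') g = sm w f g + sm w f' g := by
  induction w generalizing f f' g with
  | nil => simp only [sm, add_apply]; ring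
  | cons i w ih => simp only [sm, map_add, ih]; ring

theorem sm_add_right (w : List I) (f g g' : QSh I B) : sm w f (g + g') = sm w f g + sm w f g' := by
  induction w generalizing f g g' with
  | nil => simp only [sm, add_apply]; ring
  | cons i w ih => simp only [sm, map_add, ih]; ring

theorem sm_smul_left (w : List I) (c : ℤ[T;T⁻¹]) (f g : QSh I B) :
    sm w (c • f) g = c * sm w f g := by
  induction w generalizing f g with
  | nil => simp only [sm, smul_apply]; ring
  | cons i w ih => simp only [sm, map_smul, ih]; ring

theorem sm_smul_right (w : List I) (c : ℤ[T;T⁻¹]) (f g : QSh I B) :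
    sm w f (c • g) = c * sm w f g := by
  induction w generalizing f g with
  | nil => simp only [sm, smul_apply]; ring
  | cons i w ih => simp only [sm, map_smul, ih]; ring

theorem sm_zero_left (w : List I) (g : QSh I B) : sm w 0 g = 0 := by
  have := sm_smul_left w 0 0 g
  simpa using this

theorem sm_zero_right (w : List I) (g : QSh I B) : sm w g 0 = 0 := by
  have := sm_smul_right w 0 g 0
  simpa using this

noncomputable instance : Mul (QSh I B) := ⟨fun f g => fun w => sm w f g⟩

theorem mul_apply (f g : QSh I B) (w : List I) : (f * g) w = sm w f g := rfl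
theorem mul_nil (f g : QSh I B) : (f * g) [] = f [] * g [] := rfl
theorem L_mul (i : I) (f g : QSh I B) : L i (f * g) = L i f * g + Kt i f * L i g := rfl
theorem mul_cons (f g : QSh I B) (i : I) (w : List I) :
    (f * g) (i :: w) = (L i f * g) w + (Kt i f * L i g) w := rfl

theorem sm_Kt (i : I) (w : List I) (f g : QSh I B) :
    sm w (Kt i f) (Kt i g) = Tm (-bw B i w) * sm w f g := by
  induction w generalizing f g with
  | nil =>
    simp only [sm, Kt_apply, bw, neg_zero, Tm_zero]
    ring
  | cons j w ih =>
    simp only [sm]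
    rw [L_Kt, L_Kt, sm_smul_left, sm_smul_right, ih, Kt_Kt, ih, bw,
      show -(B i j + bw B i w) = -B i j + -bw B i w by ring, Tm_add]
    ring

theorem Kt_mul (i : I) (f g : QSh I B) : Kt i (f * g) = Kt i f * Kt i g :=
  ext' fun w => (sm_Kt i w f g).symm

noncomputable instance : One (QSh I B) := ⟨fun w => if w.isEmpty then 1 else 0⟩

theorem one_nil : (1 : QSh I B) [] = 1 := rfl
theorem one_cons (i : I) (w : List I) : (1 : QSh I B) (i :: w) = 0 := rfl
theorem L_one (i : I) : L i (1 : QSh I B) = 0 := rfl
theorem Kt_one (i : I) : Kt i (1 : QSh I B) = 1 := by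
  apply ext'
  intro w
  cases w with
  | nil => rw [Kt_apply, one_nil, bw, neg_zero, Tm_zero, mul_one]
  | cons j w => rw [Kt_apply, one_cons, mul_zero]

theorem sm_one (w : List I) (g : QSh I B) : sm w 1 g = g w := by
  induction w generalizing g with
  | nil => simp [sm, one_nil]
  | cons i w ih => simp only [sm, L_one, sm_zero_left, Kt_one, ih, zero_add]; rfl

theorem sm_one' (w : List I) (g : QSh I B) : sm w g 1 = g w := by
  induction w generalizing g with
  | nil => simp [sm, one_nil]
  | cons i w ih => simp only [sm, L_one, sm_zero_right, ih, add_zero]; rfl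

theorem sm_assoc (w : List I) (f g h : QSh I B) : sm w (f * g) h = sm w f (g * h) := by
  induction w generalizing f g h with
  | nil => simp only [sm, mul_nil]; ring
  | cons i w ih =>
    simp only [sm, L_mul, Kt_mul]
    rw [sm_add_left, sm_add_right, ih, ih, ih]
    ring

noncomputable instance : Ring (QSh I B) :=
  { (inferInstance : AddCommGroup (QSh I B)) with
    mul := (· * ·)
    one := 1
    mul_assoc := fun f g h => ext' fun w => sm_assoc w f g h
    one_mul := fun f => ext' fun w => sm_one w f
    mul_one := fun f => ext' fun w => sm_one' w f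
    left_distrib := fun f g h => ext' fun w => sm_add_right w f g h
    right_distrib := fun f g h => ext' fun w => sm_add_left w f g h
    zero_mul := fun f => ext' fun w => sm_zero_left w f
    mul_zero := fun f => ext' fun w => sm_zero_right w f
    natCast := fun n => n • (1 : QSh I B)
    natCast_zero := zero_smul ℕ (1 : QSh I B)
    natCast_succ := fun n => by
      change (n + 1) • (1 : QSh I B) = n • (1 : QSh I B) + 1
      rw [add_smul, one_smul]
    intCast := fun n => n • (1 : QSh I B)
    intCast_ofNat := fun n => by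
      change (n : ℤ) • (1 : QSh I B) = n • (1 : QSh I B)
      rw [natCast_zsmul]
    intCast_negSucc := fun n => by
      change Int.negSucc n • (1 : QSh I B) = -((n + 1) • (1 : QSh I B))
      rw [negSucc_zsmul] }

noncomputable instance : Algebra ℤ[T;T⁻¹] (QSh I B) :=
  Algebra.ofModule (fun c f g => ext' fun w => sm_smul_left w c f g)
    (fun c f g => ext' fun w => sm_smul_right w c f g)

/-- the mirror image -/
noncomputable def mir : QSh I B →ₗ[ℤ[T;T⁻¹]] QSh I B where
  toFun f := fun w => f w.reverse
  map_add' _ _ := rfl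
  map_smul' _ _ := rfl

theorem mir_apply (f : QSh I B) (w : List I) : mir f w = f w.reverse := rfl

theorem mir_mir (f : QSh I B) : mir (mir f) = f := ext' fun w => by
  rw [mir_apply, mir_apply, List.reverse_reverse]

theorem smul_cancel {c : ℤ[T;T⁻¹]} (hc : c ≠ 0) {f g : QSh I B} (h : c • f = c • g) : f = g :=
  ext' fun w => mul_left_cancel₀ hc (congrFun h w)

end QSh

end Pool.Agent.KLS
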